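import Pool.Agent.NTW.StmtsB

/-!
# NTW squad (MP_e54c4c_gt), THEOREM NT: BLOCK D (dynamics) and BLOCK P (periodic simplex, final)

Conventions and proved rows: see the headers of `Pool/Agent/NTW/StmtsA.lean`,
`Pool/Agent/NTW/StmtsB.lean`.
-/

set_option autoImplicit false

open Matrix Filter Topology

namespace Pool.Agent.NTW

open Pool.Agent.PFS Pool.Agent.PFJ Pool.Agent.NTS

/-! ## D. Dynamics -/

/-- **Row LBW** (labels, no drift).  Near tuples: coefficients of the second box are comparable with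
`exp (t i)`, at ANY point where it is near.

Proof.  `S' = ∑ w'`.  Lower bounds: `w_i ≥ w'_i - (1/8) S'` (fourth item of `TN`), `exp (t i) w_i ≤ xt w t ≤
∑ x`.  So `∑ x + (1/8) exp (t i) S' - exp (t i) w'_i ∈ closure C`, the sum of the family
`x_l + (1/8) exp (t i) w'_l - [l = i] exp (t i) w'_i` of elements of `Lf C τ w' l`.
`τ i = i`: `x_i = b w'_i`; DCP (4) at `i`: `2 (b + (1/8) exp (t i) - exp (t i)) w'_i ∈ closure C`, so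
`b ≥ (7/8) exp (t i)` (`w'_i ≠ 0`, salient).
`τ i ≠ i`, `t (τ i) = t i`: `exp (t i) (w_i + w_{τ i}) ≤ xt w t`, `w_i + w_{τ i} ≥ w'_i + w'_{τ i} - (1/4) S'`;
the family `x_l + (1/4) exp (t i) w'_l - [l = i or l = τ i] exp (t i) w'_l`; DCP (4) at `i`:
`y_i - (3/4) exp (t i) (w'_i + w'_{τ i}) ∈ closure C`, `y_i = x_i + x_{τ i}`; so
`2 y_i - exp (t i) (w'_i + w'_{τ i}) ∈ closure C`.
Upper bound for `τ i = i`: FUN for `(w, i)`: `φ ≥ 0` on `closure C`, `φ (w_m) = 0` for `m ≠ i`, normalise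
`φ (w_i) = 1`.  `φ (∑ w) = 1`, `φ (w'_i) ≥ 1 - 1/8` (first item of `TN`).  `∑_{l≠i} x_l ∈ closure C`
(`{l ≠ i}` is `τ`-invariant, DCP 4), so `b φ (w'_i) ≤ φ (∑ x) ≤ M φ (xt w t) = M exp (t i)`:
`b ≤ (8/7) M exp (t i)`; (`M ≥ 1`, `b ≥ 0`). -/
def LbwStmt : Prop :=
  ∀ (n : ℕ) (C : Set (V n)) (Γ : Subgroup (GL (Fin n) ℝ)) (K : ℕ) (c : Fin K → Fin K → ℕ)
    (τ : Fin K → Fin K), Dom C Γ K c τ → ∀ w w' : Fin K → V n, TT C Γ c w → TT C Γ c w' →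
    TN C (1/8) w w' → ∀ (t : Fin K → ℝ) (M : ℝ) (x : Fin K → V n), Nr C τ M w w' t x →
      (∀ i, τ i = i → ∃ b : ℝ, x i = b • w' i ∧ Real.exp (t i) ≤ 2 * b ∧
        b ≤ 2 * M * Real.exp (t i)) ∧
      (∀ i, τ i ≠ i → t (τ i) = t i →
        (2 : ℝ) • (x i + x (τ i)) - Real.exp (t i) • (w' i + w' (τ i)) ∈ closure C)

/-- **Row BLW** (near tuples are near on balls).

Proof.  `R ≥ 0` may be assumed (otherwise vacuous or `K = 0`; replace `R` by `|R|`).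
`ε = 1/(8 (K + 1) e^{2R})`.  `xt w t - xt w' t = ∑ exp (t i) (w_i - w'_i)`, and
`± (w_i - w'_i) ≤ ε ∑ w`, `∑ w ≤ e^R xt w t` (`exp (t i) ≥ e^{-R}`), `exp (t i) ≤ e^R`; so
`± (xt w t - xt w' t) ≤ K ε e^{2R} xt w t ≤ (1/8) xt w t`.  `r = 8/7`:
`r xt w' t ≥ r (7/8) xt w t = xt w t` and `r xt w' t ≤ (8/7)(9/8) xt w t ≤ 2 xt w t`. -/
def BlwStmt : Prop :=
  ∀ (K : ℕ) (R : ℝ), ∃ ε : ℝ, 0 < ε ∧ ∀ (n : ℕ) (C : Set (V n)), PCone C →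
    ∀ w w' : Fin K → V n, (∀ i, w i ∈ closure C) → (∀ i, w' i ∈ closure C) → TN C ε w w' →
    ∀ t : Fin K → ℝ, (∀ i, |t i| ≤ R) → ∃ r : ℝ, 0 < r ∧
      r • xt w' t - xt w t ∈ closure C ∧ (2 : ℝ) • xt w t - r • xt w' t ∈ closure C

/-- **Row SLD** (sliding balls; Euclidean geometry in `ℝ^K`, no cones).  `B m` are bad sets, invariant
under adding constants and eventually disjoint from every ball around `0`; `b m ∈ B m`, `∑ b m = 0`.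
On a subsequence there are bad points `t m` such that, seen from `t m`, the open half space `ν > 0`
is eventually free, `ν ≠ 0`, `∑ ν = 0`, and `ν · a ≤ 0` for a limit direction `a ≠ 0` of the `b m`.

Proof.  `|t|² = ∑ t_i²`.  Choose `φ0` strictly increasing such that for `t ∈ B (φ0 m)` some
`|t_i| > (m+2)²`, so `|t| > (m+2)²`; replace `B, b` by the subsequence.  `r = m + 2`, `η = 1/(m+2)`.
Fix `m`.  `A = {θ ∈ [0,1] : ∃ t ∈ B, |t - θ b| < r}`, `1 ∈ A`, `θ* = inf A`.  `θ* ∉ A`: if `|t - θ* b| < r`,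
`t ∈ B`, then either `θ* = 0` and `|t| < r < (m+2)²`, impossible, or `θ ∈ A` for some `θ < θ*`.
`b ≠ 0` (`|b| > (m+2)²`).  Choose `θ1 ∈ A` with `θ* < θ1`, `(θ1 - θ*) |b| < η`, and `t ∈ B` with
`|t - θ1 b| < r`; `c = θ* b`.  Then `|t - c| ≥ r`, `|t - c| < r + η`, all `s` with `|s - c| < r` are not in
`B`, and `|t - θ1 b|² = |t - c|² - 2 (θ1 - θ*) (t - c)·b + (θ1 - θ*)² |b|² < r² ≤ |t - c|²` gives
`(t - c)·b > 0`.
`d = c - t`: `r² ≤ |d|² < (r + η)² ≤ r² + 3`.  For `a ∈ ℝ`, `t + a ∈ B`, so `|t + a - c|² ≥ r²`; with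
`a = (∑ d)/K`: `|d|² - (∑ d)²/K ≥ r²`, so `(∑ d)² ≤ 3 K`.
Now let `m` vary: `d_m/|d_m| → ν`, `b_m/|b_m| → a` on a subsequence (bounded, `Fin K → ℝ` is proper),
`|ν| = |a| = 1`, `∑ ν = 0`, `∑ a = 0`, `ρ m = 1/|b_m|`, `ν·a ≤ 0` since `d_m·b_m < 0`.
If `ν·s > 0`: `|t_m + s - c_m|² = |s - d_m|² = |s|² - 2 |d_m| (s·d_m/|d_m|) + |d_m|² < r_m²` for large `m`,
because `|d_m|² ≤ r_m² + 3` and `|d_m| → ∞`. -/
def SldStmt : Prop :=
  ∀ (K : ℕ) (B : ℕ → Set (Fin K → ℝ)) (b : ℕ → Fin K → ℝ),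
    (∀ m, ∀ t ∈ B m, ∀ a : ℝ, (fun i => t i + a) ∈ B m) →
    (∀ R : ℝ, ∀ᶠ m in atTop, ∀ t ∈ B m, ∃ i, R < |t i|) →
    (∀ m, b m ∈ B m) → (∀ m, ∑ i, b m i = 0) →
    ∃ (φ : ℕ → ℕ) (t : ℕ → Fin K → ℝ) (ν a : Fin K → ℝ) (ρ : ℕ → ℝ), StrictMono φ ∧
      (∀ m, t m ∈ B (φ m)) ∧ ν ≠ 0 ∧ ∑ i, ν i = 0 ∧ a ≠ 0 ∧ ∑ i, a i = 0 ∧ (∀ m, 0 < ρ m) ∧
      (∀ i, Tendsto (fun m => ρ m * b (φ m) i) atTop (𝓝 (a i))) ∧ ∑ i, ν i * a i ≤ 0 ∧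
      ∀ s : Fin K → ℝ, 0 < ∑ i, ν i * s i → ∀ᶠ m in atTop, (fun i => t m i + s i) ∉ B (φ m)

/-- **Row ZPW** (zoom limit of pairs of near tuples; compare ZSL of block E and the landed row ZSS of
PFJ, `Pool/Agent/Helper77_PFJ/ZSS.lean`).

Proof.  `X_m = (exp (t_{m,i}) w_{m,i})_i ∈ TT` (TBX 2), `∑ X_m = xt (w m) (t m) ∈ C ∩ Hull` (ELM 4).  ZOM:
`G_m ∑ X_{φ m} → p ∈ C`, `G_m = s_m act g_m`; LPS: on a subsequence `G_m X_m → v`, `IsPES`, `∑ v = p`;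
TCL: `TT C Γ c v`.  Let `q_m ∈ Ws C τ (w' m)` with `xt (w m) (t m + s0) ≤ q_m ≤ 2 xt (w m) (t m + s0)`; `q_m ∈ C`.
PTP: `Y_m ∈ TT`, `Lf C τ Y_m i = Lf C τ (w' m) i`, `∑ Y_m = q_m`.  With `σ ≥ |s0 i|`:
`e^{-σ} ∑ X_m ≤ q_m ≤ 2 e^σ ∑ X_m`, so `G_m q_m` is bounded (`normal`), on a subsequence `→ q ≥ e^{-σ} p`,
`q ∈ C`; LPS: `G_m Y_m → v'`, `IsPES`; WLM: `TT C Γ c v'`, and on a subsequence
`img g_m (Lf C τ (w' m) i) = Lf C τ (G_m Y_m) i → Lf C τ v' i` (PAC), the same for `Ws`.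
If `Ws C τ v = Ws C τ v'`: `p = ∑ v ∈ Ws C τ v'`, NSF (5): `NearS C 2 (img g_m (Ws C τ (w' m))) (G_m ∑ X_m)`
for large `m`, so (NSF 1) `NearS C 2 (Ws C τ (w' m)) (xt (w m) (t m))`: contradiction.
Labels: for `τ i = i`, `Y_{m,i} = r_{m,i} w'_{m,i}`, `r > 0` (it is in `Lf C τ (w' m) i`, in `closure C`,
nonzero).  `q_m = ∑ Y_m`: `Nr C τ 2 (w m) (w' m) (t m + s0) (Y_m)`; LBW (1):
`r_{m,i}/exp (t_{m,i}) ∈ [exp (s0 i)/2, 4 exp (s0 i)]`.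
Let `s` be such that `NearS` holds at `t (φ m) + s` for all large `m` (of the subsequence);
`x_m`: `Nr C τ 2 (w m) (w' m) (t m + s) (x_m)` (DCP 6); replace `x_{m,i}` by `(1/2)(x_{m,i} + x_{m,τ i})`, which
is in `closure C` (DCP 4) and still `Nr`.  LBW (1): `x_{m,i} = b_{m,i} w'_{m,i}`,
`b_{m,i}/exp (t_{m,i}) ∈ [exp (s i)/2, 4 exp (s i)]` for `τ i = i`.  `G_m x_{m,i} ≤ G_m ∑ x_m ≤
2 G_m xt (w m) (t m + s) → 2 xt v s`, bounded; on a subsequence `G_m x_{m,i} → x_i ∈ Lf C τ v' i` (second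
half of `LimS`).  `Nr C τ 2 v v' s x` in the limit.  For `τ i = i`: `G_m x_{m,i} = (b_{m,i}/r_{m,i}) G_m Y_{m,i}`,
`b/r ∈ [exp (s i - s0 i)/8, 8 exp (s i - s0 i)]`, on a subsequence convergent to `β`: `x_i = β v'_i`.
`M = 8 e^σ ≥ 2` (`Nr` for `2` implies `Nr` for `M`). -/
def ZpwStmt : Prop :=
  ∀ (n : ℕ) (C : Set (V n)) (Γ : Subgroup (GL (Fin n) ℝ)) (K : ℕ) (c : Fin K → Fin K → ℕ)
    (τ : Fin K → Fin K), Dom C Γ K c τ → ∀ (w w' : ℕ → Fin K → V n) (t : ℕ → Fin K → ℝ)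
    (s0 : Fin K → ℝ), (∀ m, TT C Γ c (w m)) → (∀ m, TT C Γ c (w' m)) →
    (∀ m, TN C (1/8) (w m) (w' m)) →
    (∀ m, NearS C 2 (Ws C τ (w' m)) (xt (w m) (fun i => t m i + s0 i))) →
    (∀ m, ¬ NearS C 2 (Ws C τ (w' m)) (xt (w m) (t m))) →
    ∃ (φ : ℕ → ℕ) (v v' : Fin K → V n) (M : ℝ), StrictMono φ ∧ TT C Γ c v ∧ TT C Γ c v' ∧
      Ws C τ v ≠ Ws C τ v' ∧
      ∀ s : Fin K → ℝ,
        (∀ᶠ m in atTop,
          NearS C 2 (Ws C τ (w' (φ m))) (xt (w (φ m)) (fun i => t (φ m) i + s i))) →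
        ∃ x : Fin K → V n, Nr C τ M v v' s x ∧ Lbl τ M v' s x

/-- **Row CNE** (facts on the cone of directions).

Proof.  (1) the condition is closed, homogeneous and invariant under constants: for (1a) multiply the
inequality by `ρ m > 0` and let `m → ∞`.  (2) if `b ≠ 0`, `∑ b = 0`, then `b` is not constant: some
`b l - b m > 0`, so `b j - b k > 0`; `∑ ν b = ν_j (b j - b k) > 0`.  (3) `a_k = -1` if `∃ j, Leaf c τ j k`,
`a_k = 0` otherwise.  `a (τ i) = a i`: if `τ i ≠ i` then neither `i` nor `τ i` is the `k` of a `Leaf`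
(`fk`), so both are `0`.  If `Leaf c τ j k`: `a_k = -1`; `a_j = 0`: if `Leaf c τ l j` then `l = k` (otherwise
`c j k ≤ 2` by `small`, but `3 ≤ c j k`), and `Tau.sgl` at `j, k` (`fj`, `big`) gives `l' ≠ j, k` with `3 ≤ c j l'`
or `3 ≤ c k l'`, contradicting `small` of `Leaf c τ k j`, of `Leaf c τ j k`.  So `a_j - a_k = 1`.
Let `D ≥ |t_i|` for all `i`, `s ≥ 6 D`: `b = s a + t`: `b_j - b_k ≥ s - 2 D`, `b_l - b_m ≤ s + 2 D`
(`a_l - a_m ≤ 1`), and `s + 2 D ≤ 2 (s - 2 D)`. -/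
def CneStmt : Prop :=
  ∀ (K : ℕ) (c : Fin K → Fin K → ℕ) (τ : Fin K → Fin K), Tau c τ → (∀ i j, c i j = c j i) →
    (∀ (b : ℕ → Fin K → ℝ) (ρ : ℕ → ℝ) (a : Fin K → ℝ), (∀ m, Cne c τ (b m)) →
      (∀ m, 0 < ρ m) → (∀ i, Tendsto (fun m => ρ m * b m i) atTop (𝓝 (a i))) → Cne c τ a) ∧
    (∀ (b : Fin K → ℝ) (a : ℝ), Cne c τ b → Cne c τ (fun i => b i + a)) ∧
    (∀ (b ν : Fin K → ℝ) (j k : Fin K), Cne c τ b → b ≠ 0 → ∑ i, b i = 0 → Leaf c τ j k →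
      0 < ν j → ν k = -ν j → (∀ i, i ≠ j → i ≠ k → ν i = 0) → 0 < ∑ i, ν i * b i) ∧
    ∃ a : Fin K → ℝ, (∀ i, a (τ i) = a i) ∧
      ∀ t : Fin K → ℝ, ∃ s0 : ℝ, ∀ s : ℝ, s0 ≤ s → Cne c τ (fun i => s * a i + t i)

/-- **Row NRC** (near tuples are near in all good directions).

Proof.  Suppose not.  For every `m ∈ ℕ` (take `ε = 1/(m+9)`) there are `w m, w' m ∈ TT`,
`TN C (1/(m+9)) (w m) (w' m)`, and `b'_m` with `Cne c τ b'_m`, not `NearS C 2 (Ws C τ (w' m)) (xt (w m) b'_m)`.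
`B m = {t : ¬ NearS C 2 (Ws C τ (w' m)) (xt (w m) t)}` is invariant under constants
(`xt w (t + a) = e^a xt w t`; scale the point of the subspace).  `b m = b'_m - (∑ b'_m)/K ∈ B m`, `Cne` by
CNE (2), `∑ b m = 0` (`K ≥ 3`).  BLW: for every `R`, for large `m` (`TN` is monotone in `ε`) all `t` with
`|t_i| ≤ R` are not in `B m` (`xt (w' m) t ∈ Ws C τ (w' m)`, DCP 1).
SLD: `φ, t, ν, a, ρ`.  `s0 = ν`: `∑ ν s0 > 0`, so `t m + s0 ∉ B (φ m)` for large `m`; pass to this tail.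
ZPW for `w ∘ φ, w' ∘ φ, t, s0` (`TN C (1/8)` by monotonicity): `ψ, v, v', M`.  For `s` with `∑ ν s > 0`:
`t m + s ∉ B (φ m)` for all large `m`, so also along `ψ`, and ZPW gives `x` with `Nr`, `Lbl`.  So
`HSP C Γ c τ v v' ν M`.  HSC: `j, k`.  `Cne c τ a` (CNE 1), and CNE (3): `∑ ν a > 0`, contradicting
`∑ ν a ≤ 0`. -/
def NrcStmt : Prop :=
  ∀ (n : ℕ) (C : Set (V n)) (Γ : Subgroup (GL (Fin n) ℝ)) (K : ℕ) (c : Fin K → Fin K → ℕ)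
    (τ : Fin K → Fin K), Dom C Γ K c τ → NIT C Γ K →
    ∃ ε : ℝ, 0 < ε ∧ ε ≤ 1/8 ∧ ∀ w w' : Fin K → V n, TT C Γ c w → TT C Γ c w' → TN C ε w w' →
      ∀ b : Fin K → ℝ, Cne c τ b → NearS C 2 (Ws C τ w') (xt w b)

/-- **Row CMW** (comparison of the two flats).

Proof.  DCP (6): `x` with `Nr C τ 2 w w' t x`.  LBW: for `τ i = i` `exp (t i) w'_i ≤ 2 x_i`, so
`2 (x_i + x_{τ i}) - exp (t i) (w'_i + w'_{τ i}) ∈ closure C` for all `i`.  Sum over `i`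
(`t (τ i) = t i`): `4 ∑ x - 2 xt w' t ∈ closure C`; so `xt w' t ≤ 2 ∑ x ≤ 4 xt w t`. -/
def CmwStmt : Prop :=
  ∀ (n : ℕ) (C : Set (V n)) (Γ : Subgroup (GL (Fin n) ℝ)) (K : ℕ) (c : Fin K → Fin K → ℕ)
    (τ : Fin K → Fin K), Dom C Γ K c τ → ∀ w w' : Fin K → V n, TT C Γ c w → TT C Γ c w' →
    TN C (1/8) w w' → ∀ t : Fin K → ℝ, (∀ i, t (τ i) = t i) →
      NearS C 2 (Ws C τ w') (xt w t) → (4 : ℝ) • xt w t - xt w' t ∈ closure C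

/-- **Row PIG** (pigeonhole modulo the group).

Proof.  `K0` compact from `CC.cocompact`.  `S = {w : TT C Γ c w ∧ ∑ w ∈ K0}` is compact in `Fin K → V n`:
sequentially: `∑ w_m → p ∈ K0` on a subsequence, LPS, TCL.  For `w ∈ S` and `ε > 0` there is a
neighbourhood `U_w` such that any `w1, w2 ∈ U_w` satisfy `TN C ε w1 w2`: the four vectors in `TN` are
continuous in `(w1, w2)` and at `w1 = w2 = w` equal to `ε ∑ w ∈ C`, `C` open.  Finitely many `U_w` cover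
`S`; let `N` be their number (if `S` is empty, `TT` is empty, by the next line; `N = 0` works).
Given `W_0, …, W_N ∈ TT`: `∑ W_m ∈ C ∩ Hull`, so `t_m • act g_m (∑ W_m) ∈ K0`, `g_m ∈ Γ`, `t_m > 0`;
`G_m W_m ∈ S` (TBX 3).  Two of them, `m ≠ m'`, are in the same `U_w`: `TN C ε (G_m W_m) (G_{m'} W_{m'})`; apply
`G_m⁻¹` (`closure C` is invariant): `g = g_m⁻¹ g_{m'}`, `s = t_{m'}/t_m`. -/
def PigStmt : Prop :=
  ∀ (n : ℕ) (C : Set (V n)) (Γ : Subgroup (GL (Fin n) ℝ)) (K : ℕ) (c : Fin K → Fin K → ℕ)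
    (τ : Fin K → Fin K), Dom C Γ K c τ → ∀ ε : ℝ, 0 < ε → ∃ N : ℕ,
    ∀ W : Fin (N + 1) → Fin K → V n, (∀ m, TT C Γ c (W m)) →
      ∃ m m' : Fin (N + 1), m ≠ m' ∧ ∃ g ∈ Γ, ∃ s : ℝ, 0 < s ∧
        TN C ε (W m) (fun i => s • act g (W m' i))

/-- **Row NAL** (near everywhere).

Proof.  `t^N = N 1_i`: `e^{-N} xt w t^N → w_i`; `q_N ∈ Ws C τ w'`, `xt w t^N ≤ q_N ≤ 2 xt w t^N`; `e^{-N} q_N` is
bounded (`normal`), on a subsequence `→ q ∈ Ws C τ w'` (closed), `w_i ≤ q ≤ 2 w_i`; `Ext` (EIW 3 for `w`):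
`q = α w_i`, `α ≠ 0`. -/
def NalStmt : Prop :=
  ∀ (n : ℕ) (C : Set (V n)) (Γ : Subgroup (GL (Fin n) ℝ)) (K : ℕ) (c : Fin K → Fin K → ℕ)
    (τ : Fin K → Fin K), Dom C Γ K c τ → ∀ w w' : Fin K → V n, TT C Γ c w → TT C Γ c w' →
    (∀ t : Fin K → ℝ, NearS C 2 (Ws C τ w') (xt w t)) → ∀ i, w i ∈ Ws C τ w'

/-- **Row FNT** (finitely many group elements).

Proof.  `PCone.absorb`: `A ≥ 1` with `A p - q, A q - p ∈ closure C`.  If `4 s γ q - p`, `4 p - s γ q ∈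
closure C` (`γ q` for `act γ q`), then `s γ p ≤ A s γ q ≤ 4 A p` and `p ≤ 4 s γ q ≤ 4 A s γ p`.  So
`4 A s γ p - p`, `16 A² p - 4 A s γ p ∈ closure C`: `Cmp C (16 A²) (act γ p) p` (with the scaling `4 A s`).
`Pool.Agent.PFS.H3.prp : PrpStmt` with `o = p`. -/
def FntStmt : Prop :=
  ∀ (n : ℕ) (C : Set (V n)) (Γ : Subgroup (GL (Fin n) ℝ)), CC C Γ → ∀ p ∈ C, ∀ q ∈ C,
    {γ : GL (Fin n) ℝ | γ ∈ Γ ∧ ∃ s : ℝ, 0 < s ∧ (4 : ℝ) • (s • act γ q) - p ∈ closure C ∧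
      (4 : ℝ) • p - s • act γ q ∈ closure C}.Finite

/-- **Row RET** (among many positions on one flat two are related by the stabiliser of the box).

Proof.  `ε` from NRC, `N` from PIG for `ε`, `a` from CNE (4).  Let `w ∈ TT`, positions `T_0, …, T_N`.
For `s ∈ ℕ`: `W_m = (exp (T_{m,i} - s a_i) w_i)_i ∈ TT` (TBX 2); `xt W_m b = xt w (T_m - s a + b)`.  PIG:
`m_s ≠ m'_s`, `g_s ∈ Γ`, `σ_s > 0`, `TN C ε (W_m) U`, `U = σ_s g_s W_{m'}`, `U ∈ TT` (TBX 3),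
`Ws C τ U = img g_s (Ws C τ w)` (PAC, FSR).  `TN` is symmetric, and `TN C (1/8)` by monotonicity.
Let `s` be large (CNE 4 with `t = 0`): `Cne c τ (s a)`.  NRC: `NearS C 2 (Ws C τ U) (xt W_m (s a))`, CMW
(`a (τ i) = a i`): `4 xt W_m (s a) - xt U (s a) ∈ closure C`, where `xt W_m (s a) = xt w T_m`,
`xt U (s a) = σ_s act g_s (xt w T_{m'})`.  The same with `U, W_m` exchanged:
`4 xt U (s a) - xt W_m (s a) ∈ closure C`.  So `g_s` lies in the finite set FNT for `p = xt w T_m`,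
`q = xt w T_{m'}` (points of `C`).  Finitely many triples `(m, m', γ)`: one of them occurs for infinitely
many `s`.
Let `t` be arbitrary.  For large `s` `Cne c τ (s a + (t - T_m))` (CNE 4), so for some large `s` of the
infinite set NRC gives `NearS C 2 (Ws C τ U) (xt W_m (s a + t - T_m))`, that is
`NearS C 2 (img γ (Ws C τ w)) (xt w t)`.  `img γ (Ws C τ w) = Ws C τ (act γ w)` (PAC with `s = 1`), `act γ w ∈ TT`.
NAL: all `w_i ∈ Ws C τ (act γ w)`; ALW: `Ws C τ w = Ws C τ (act γ w) = img γ (Ws C τ w)`.  `Rel` with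
`s = σ_s` for one `s` of the infinite set. -/
def RetStmt : Prop :=
  ∀ (n : ℕ) (C : Set (V n)) (Γ : Subgroup (GL (Fin n) ℝ)) (K : ℕ) (c : Fin K → Fin K → ℕ)
    (τ : Fin K → Fin K), Dom C Γ K c τ → NIT C Γ K → ∃ N : ℕ, ∀ w : Fin K → V n,
    TT C Γ c w → ∀ T : Fin (N + 1) → Fin K → ℝ, ∃ m m' : Fin (N + 1), m ≠ m' ∧
      Rel C Γ τ w (T m) (T m')

/-- **Row STW** (zooming along a flat with the stabiliser of its box).

Proof.  `Rel` is symmetric: apply `act γ⁻¹` and `s⁻¹`; `img γ⁻¹ W = W`.  Claim: there is `m0` such that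
`Rel C Γ τ w (t m0) (t m)` for infinitely many `m`.  Otherwise, for every `m0` `Rel (t m0) (t m)` fails for all
large `m`; choose recursively `m_0 < m_1 < … < m_N` with no relation between different ones (also in
the other order, by symmetry): contradicts RET.  So on a subsequence `γ_m, s_m` with `Rel`; the
points `s_m act γ_m (xt w (t (φ m)))` lie between `(1/4) xt w (t m0)` and `4 xt w (t m0)`: bounded
(`normal`), a subsequence converges to `p ≥ (1/4) xt w (t m0)`, `p ∈ C`. -/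
def StwStmt : Prop :=
  ∀ (n : ℕ) (C : Set (V n)) (Γ : Subgroup (GL (Fin n) ℝ)) (K : ℕ) (c : Fin K → Fin K → ℕ)
    (τ : Fin K → Fin K), Dom C Γ K c τ → NIT C Γ K → ∀ w : Fin K → V n, TT C Γ c w →
    ∀ t : ℕ → Fin K → ℝ, ∃ (φ : ℕ → ℕ) (g : ℕ → GL (Fin n) ℝ) (s : ℕ → ℝ) (p : V n),
      StrictMono φ ∧ (∀ m, g m ∈ Γ) ∧ (∀ m, 0 < s m) ∧
      (∀ m, img (g m) (Ws C τ w) = Ws C τ w) ∧ p ∈ C ∧
      Tendsto (fun m => s m • act (g m) (xt w (t (φ m)))) atTop (𝓝 p)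

/-! ## P. The periodic simplex -/

/-- **Row ZBW** (the zoom property).

Proof.  `t_m i = log (r m i)`, `xt w (t m) = ∑ r_{m,i} w_i`.  STW: `φ, g, s, p`.  `X_m = (s_m act g_m (r_{φ m,i} w_i))_i`
is in `TT` (TBX 2, 3), `∑ X_m → p`; LPS: on a subsequence `X_m → v`, `IsPES`.  `Ws C τ X_m =
img g_m (Ws C τ w) = Ws C τ w` (PAC, FSR).  WLM: `TT C Γ c v` and on a subsequence `Ws C τ X_m → Ws C τ v`,
`Lf C τ X_m i → Lf C τ v i`; by uniqueness of limits (LSF 3, 4) `Ws C τ v = Ws C τ w`.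
Factors: for every `m`, all `X_{m,i} ∈ Ws C τ w`, so ALW (`v := X_m`, `w := w`) gives `π_m` with
`Lf C τ X_m (π_m i) = Lf C τ w i`; finitely many permutations: on a subsequence `π_m = π` is constant, so
`Lf C τ X_m i = Lf C τ w (π⁻¹ i)` is constant in `m`, and by LSF (3), (4) equal to `Lf C τ v i`.  And
`Lf C τ X_m i = img g_m (Lf C τ w i)` (PAC, FSR). -/
def ZbwStmt : Prop :=
  ∀ (n : ℕ) (C : Set (V n)) (Γ : Subgroup (GL (Fin n) ℝ)) (K : ℕ) (c : Fin K → Fin K → ℕ)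
    (τ : Fin K → Fin K), Dom C Γ K c τ → NIT C Γ K → ∀ w : Fin K → V n, TT C Γ c w →
    ZoomP C Γ c τ w

/-- **Row BPW** (a simultaneously biproximal element; adapt the landed row BP2 of PFJ,
`Pool/Agent/Helper13_PFJ/BP2.lean`).

Proof.  `ZoomP` with `r_{m,i} = e^m` if `i < τ i`, `e^{-m}` if `τ i < i`, `1` if `τ i = i`: `φ, g, s, v`.
For every `i < τ i`: `Pool.Agent.PFJ.H82.bpbF : BpbStmt` with `U0 = Lf C τ w i`, `U1 = Lf C τ v i`, `x0 = w_i`,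
`x1 = w_{τ i}`, `X0 = v_i`, `X1 = v_{τ i}`, `e_m = e^{φ m} → ∞`.  Hypotheses: strictness of `U0`, `U1` (BXT with
TBX (1), dimension `c i (τ i) ≥ 3`), `span (Face C (x0 + x1)) = U0` by definition, `y ∈ Face ↔ Unt` (FCS 3),
nonunits (EXR 1, 2), `Ind2` (LIN), the two limits.  So for all large `m0` and all large `m` (depending on
`m0`) the claim of BPB holds for all pairs at once; fix such `m0, m` and `σ = g_{m0}⁻¹ g_m ∈ Γ`:
`y0, y1 ∈ Lf C τ w i`, `σ y0 = lam y0`, `σ y1 = mu y1`, `0 < lam < mu`.  `w'_i = y0`, `w'_{τ i} = y1` for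
`i < τ i`, `w'_i = w_i` for `τ i = i`: `img σ (Lf C τ w i) = Lf C τ w i` (both `g_m`, `g_{m0}` map it onto
`Lf C τ v i`), so `σ w_i = ν w_i`, `ν > 0` (`σ` preserves `closure C`, injective, salient).  `y0, y1` are not
units (`Pool.Agent.PFJ.H76e.ei2 : Ei2Stmt` (2)).  CHW: `TT C Γ c w'`, same factors. -/
def BpwStmt : Prop :=
  ∀ (n : ℕ) (C : Set (V n)) (Γ : Subgroup (GL (Fin n) ℝ)) (K : ℕ) (c : Fin K → Fin K → ℕ)
    (τ : Fin K → Fin K), Dom C Γ K c τ → ∀ w : Fin K → V n, TT C Γ c w → ZoomP C Γ c τ w →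
    ∃ (w' : Fin K → V n) (σ : GL (Fin n) ℝ) (nu : Fin K → ℝ), TT C Γ c w' ∧
      (∀ i, Lf C τ w' i = Lf C τ w i) ∧ σ ∈ Γ ∧
      (∀ i, 0 < nu i ∧ act σ (w' i) = nu i • w' i) ∧ ∀ i, τ i ≠ i → nu i ≠ nu (τ i)

/-- **Row SEW** (Selberg's centraliser trick; adapt the landed row SE2 of PFJ,
`Pool/Agent/Helper13_PFJ/SE2.lean`).

Proof.  `ZoomP` with `r_{m,i} = exp (m ℓ_i)`: `G_m = s_m act g_m`, `y_{m,i} = G_m (exp (φ(m) ℓ_i) w_i) → v_i`,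
`img g_m (Lf C τ w i) = Lf C τ v i`.  `Pool.Agent.PFJ.H82.fixF : PFB.FixStmt`: `g_m σ g_m⁻¹` takes finitely many
values, so it is constant on a subsequence.  For `m0 < m` in this subsequence `γ = g_{m0}⁻¹ g_m` commutes
with `σ`, and `img γ (Lf C τ w i) = Lf C τ w i`.  `τ i = i`: `γ w_i = κ w_i`, `κ > 0`.  `τ i ≠ i`, say
`ν_i < ν_{τ i}`: EI2 (1) for `U = Lf C τ w i` (strict by BXT), `x0 = w_i`, `x1 = w_{τ i}`, `e = γ w_i`
(`σ e = γ σ w_i = ν_i e`): `e = κ w_i` or `e = κ w_{τ i}`, the latter would give `ν_i = ν_{τ i}`; the same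
for `γ w_{τ i}`.  So `γ w_i = exp (χ_i) w_i` for all `i`, and
`exp (χ_i) = (s_{m0}/s_m) exp (-(φ m - φ m0) ℓ_i) ‖y_{m,i}‖ / ‖y_{m0,i}‖`, hence (`∑ ℓ = 0`)
`∑ ℓ_i χ_i = -(φ m - φ m0) ∑ ℓ_i² + ∑ ℓ_i (log ‖y_{m,i}‖ - log ‖y_{m0,i}‖)`; the last sum is bounded
(`y_{m,i} → v_i ≠ 0`), so this is `≠ 0` for `m` large. -/
def SewStmt : Prop :=
  ∀ (n : ℕ) (C : Set (V n)) (Γ : Subgroup (GL (Fin n) ℝ)) (K : ℕ) (c : Fin K → Fin K → ℕ)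
    (τ : Fin K → Fin K), Dom C Γ K c τ → ∀ w : Fin K → V n, TT C Γ c w → ZoomP C Γ c τ w →
    ∀ (σ : GL (Fin n) ℝ) (nu : Fin K → ℝ), σ ∈ Γ →
    (∀ i, 0 < nu i ∧ act σ (w i) = nu i • w i) → (∀ i, τ i ≠ i → nu i ≠ nu (τ i)) →
    ∀ ℓ : Fin K → ℝ, ℓ ≠ 0 → ∑ i, ℓ i = 0 →
      ∃ γ ∈ Γ, ∃ χ : Fin K → ℝ, (∀ i, act γ (w i) = Real.exp (χ i) • w i) ∧
        ∑ i, ℓ i * χ i ≠ 0

/-- **Row PZW** (assembly of the periodic simplex).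

Proof.  ZBW; BPW: `w', σ, nu`; ZBW for `w'`; SEW for `w'`; CHI (`Pool.Agent.PFS.H81.chi`) with
`X = {χ : ∃ γ ∈ Γ, ∀ i, act γ (w' i) = exp (χ i) • w' i}`: `k` independent characters; ABE
(`Pool.Agent.PFS.H37.abeF`): the subgroup.  `Concl` as `famfin` in `Pool/Agent/Helper37_PFS/FIN3.lean`:
LIN, FRZ (`Pool.Agent.PFS.H32.frz`), maximality by `Pool.Agent.PFJ.H83.mxe : MxeStmt` with EIW (3). -/
def PzwStmt : Prop :=
  ∀ (n : ℕ) (C : Set (V n)) (Γ : Subgroup (GL (Fin n) ℝ)) (k : ℕ)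
    (c : Fin (k + 1) → Fin (k + 1) → ℕ) (τ : Fin (k + 1) → Fin (k + 1)),
    Dom C Γ (k + 1) c τ → NIT C Γ (k + 1) → ∀ w : Fin (k + 1) → V n, TT C Γ c w →
    ∃ w' : Fin (k + 1) → V n, TT C Γ c w' ∧ (∀ i, Lf C τ w' i = Lf C τ w i) ∧ Concl C Γ k w'

/-- **Row NTF** (Theorem NT).

Proof.  EXC (`w0`): `c`, `w ∈ TT`; TAU: `τ`; `Dom` (all fields); PZW. -/
def NtfStmt : Prop :=
  ∀ (n : ℕ) (C : Set (V n)) (Γ : Subgroup (GL (Fin n) ℝ)), CC C Γ → ∀ k : ℕ, 2 ≤ k →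
    MaxCard C Γ (k + 1) → (∃ w : Fin (k + 1) → V n, IsPES C Γ w) → NIT C Γ (k + 1) →
    ∃ w : Fin (k + 1) → V n, IsPES C Γ w ∧ Concl C Γ k w

end Pool.Agent.NTW
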