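import Pool.Agent.NTS.StmtsE
import Pool.Agent.PFJ.StmtsG
import Pool.Agent.Helper82_PFJ.Main

/-!
# NTW squad (MP_e54c4c_gt), THEOREM NT: definitions

THEOREM NT.  Let `Γ` act convex cocompactly on the domain of the cone `C`, let `K = k + 1 ≥ 3` be the
maximal number of vertices of a properly embedded simplex with vertices in the limit set.  Suppose
that no such simplex `w` with `K` vertices has an ISOSCELES TRIANGLE of nontrivial edges: distinct
`i, j, l` with `d_ij ≥ 3` and `d_il = d_jl ≥ 3`, where `d_ij` is the dimension of the span of the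
open face `Face C (w_i + w_j)` (condition `NIT`).  Then some such simplex is a maximal properly
embedded simplex preserved by a subgroup of `Γ` isomorphic to `ℤ^k`.

Conventions.  `x ≤ y` means `y - x ∈ closure C`.  `G = s • act g` scaled group element.
PAIR BOX (`PB`): a subspace `L` containing `w_i, w_j` such that `v ∈ L`, `v + ∑_{m≠i,j} w_m ∈ closure C`
implies `v ∈ closure C`.  `c i j` will be the maximal dimensions of pair boxes (chosen with maximal
sum); `TT` is the family of top simplices with pair boxes of dimension `≥ c i j` for all pairs; for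
these `c i j = d_ij` and the pair box is the span `Fs` of the open face.  Edges with `c i j ≥ 3` are
called nontrivial.  `τ` is the involution exchanging the two ends of every isolated nontrivial edge
and fixing the other indices.  `Lf C τ w i` is the factor of the index `i`, `Ws C τ w` the subspace of the
box of `w`.  ONE UNIFORM CONVENTION: for a family `x i ∈ Lf C τ w i` the sum `x i + x (τ i)` is the
component (for fixed points of `τ` it is `2 x i`).
-/

set_option autoImplicit false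

open Matrix Filter Topology

namespace Pool.Agent.NTW

open Pool.Agent.PFS Pool.Agent.PFJ Pool.Agent.NTS

variable {n K : ℕ}

/-- the point of the simplex `w` with real exponents `t` -/
noncomputable def xt (w : Fin K → V n) (t : Fin K → ℝ) : V n := ∑ i, Real.exp (t i) • w i

/-- the span of the open face of `x + y` -/
noncomputable def Fs (C : Set (V n)) (x y : V n) : Submodule ℝ (V n) :=
  Submodule.span ℝ (Face C (x + y))

/-- the sum of the vertices other than `w i`, `w j` -/
noncomputable def rst (w : Fin K → V n) (i j : Fin K) : V n :=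
  ∑ m ∈ (Finset.univ.erase i).erase j, w m

/-- `L` is a pair box of `w` at the pair `i, j` -/
structure PB (C : Set (V n)) (w : Fin K → V n) (i j : Fin K) (L : Submodule ℝ (V n)) : Prop where
  left : w i ∈ L
  right : w j ∈ L
  box : ∀ v ∈ L, v + rst w i j ∈ closure C → v ∈ closure C

/-- top simplices with pair boxes of dimension at least `c i j` for all pairs -/
structure TT (C : Set (V n)) (Γ : Subgroup (GL (Fin n) ℝ)) (c : Fin K → Fin K → ℕ)
    (w : Fin K → V n) : Prop where
  pes : IsPES C Γ w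
  pb : ∀ i j, i ≠ j → ∃ L : Submodule ℝ (V n), PB C w i j L ∧ c i j ≤ Module.finrank ℝ L

/-- `τ` exchanges the ends of the isolated nontrivial edges of the weighted graph `c` and fixes the
other indices -/
structure Tau (c : Fin K → Fin K → ℕ) (τ : Fin K → Fin K) : Prop where
  inv : ∀ i, τ (τ i) = i
  pair : ∀ i, τ i ≠ i → 3 ≤ c i (τ i)
  leaf : ∀ i, τ i ≠ i → ∀ l, l ≠ i → l ≠ τ i → c i l ≤ 2
  sgl : ∀ i j, i ≠ j → τ i = i → 3 ≤ c i j → ∃ l, l ≠ i ∧ l ≠ j ∧ (3 ≤ c i l ∨ 3 ≤ c j l)

/-- the standing hypotheses and the maximality of `c` -/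
structure Dom (C : Set (V n)) (Γ : Subgroup (GL (Fin n) ℝ)) (K : ℕ)
    (c : Fin K → Fin K → ℕ) (τ : Fin K → Fin K) : Prop extends CC C Γ, Tau c τ where
  three : 3 ≤ K
  maxc : MaxCard C Γ K
  sym : ∀ i j, c i j = c j i
  two : ∀ i j, i ≠ j → 2 ≤ c i j
  dim : ∀ w, TT C Γ c w → ∀ i j, i ≠ j → Module.finrank ℝ (Fs C (w i) (w j)) = c i j

/-- the factor of the index `i` -/
noncomputable def Lf (C : Set (V n)) (τ : Fin K → Fin K) (w : Fin K → V n) (i : Fin K) :
    Submodule ℝ (V n) :=
  if τ i = i then Submodule.span ℝ {w i} else Fs C (w i) (w (τ i))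

/-- the subspace of the box of `w` -/
noncomputable def Ws (C : Set (V n)) (τ : Fin K → Fin K) (w : Fin K → V n) :
    Submodule ℝ (V n) :=
  ⨆ i, Lf C τ w i

/-- the element `∑ x` of the box of `v'` lies between `xt v t` and `M • xt v t` -/
structure Nr (C : Set (V n)) (τ : Fin K → Fin K) (M : ℝ) (v v' : Fin K → V n) (t : Fin K → ℝ)
    (x : Fin K → V n) : Prop where
  mem : ∀ i, x i ∈ Lf C τ v' i
  lo : (∑ i, x i) - xt v t ∈ closure C
  up : M • xt v t - ∑ i, x i ∈ closure C

/-- the coefficients of the single vertices in `∑ x` are comparable with `exp (t i)` -/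
def Lbl (τ : Fin K → Fin K) (M : ℝ) (v' : Fin K → V n) (t : Fin K → ℝ) (x : Fin K → V n) : Prop :=
  ∀ i, τ i = i → ∃ b : ℝ, x i = b • v' i ∧ Real.exp (t i) ≤ M * b ∧ b ≤ M * Real.exp (t i)

/-- two different boxes, the second one near the first one on a half space, with labels -/
structure HSP (C : Set (V n)) (Γ : Subgroup (GL (Fin n) ℝ)) (c : Fin K → Fin K → ℕ)
    (τ : Fin K → Fin K) (v v' : Fin K → V n) (ν : Fin K → ℝ) (M : ℝ) : Prop where
  tv : TT C Γ c v
  tv' : TT C Γ c v'
  ne : Ws C τ v ≠ Ws C τ v'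
  nz : ν ≠ 0
  sum : ∑ i, ν i = 0
  near : ∀ t : Fin K → ℝ, 0 < ∑ i, ν i * t i → ∃ x : Fin K → V n, Nr C τ M v v' t x ∧
    Lbl τ M v' t x

/-- a half space pair with the only negative index `k` -/
structure HK (C : Set (V n)) (Γ : Subgroup (GL (Fin n) ℝ)) (c : Fin K → Fin K → ℕ)
    (τ : Fin K → Fin K) (v v' : Fin K → V n) (ν : Fin K → ℝ) (M : ℝ) (k : Fin K) : Prop
    extends HSP C Γ c τ v v' ν M where
  neg : ν k < 0
  pos : ∀ i, i ≠ k → 0 ≤ ν i
  out : v k ∉ Ws C τ v'
  lab : ∀ i, i ≠ k → τ i = i → ∃ r : ℝ, 0 < r ∧ v' i = r • v i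
  cls : ∀ i, i ≠ k → τ i ≠ i → ∃ j, τ j ≠ j ∧ v i ∈ Lf C τ v' j

/-- `k` is a leaf of the graph of nontrivial edges, with neighbour `j`, and the edge is not
isolated -/
structure Leaf (c : Fin K → Fin K → ℕ) (τ : Fin K → Fin K) (j k : Fin K) : Prop where
  ne : j ≠ k
  fk : τ k = k
  fj : τ j = j
  big : 3 ≤ c j k
  small : ∀ l, l ≠ j → l ≠ k → c k l ≤ 2

/-- the cone of good directions -/
def Cne (c : Fin K → Fin K → ℕ) (τ : Fin K → Fin K) (b : Fin K → ℝ) : Prop :=
  ∀ j k, Leaf c τ j k → ∀ l m, b l - b m ≤ 2 * (b j - b k)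

/-- nearness of tuples -/
def TN (C : Set (V n)) (ε : ℝ) (w w' : Fin K → V n) : Prop :=
  ∀ i, ε • (∑ m, w m) - (w i - w' i) ∈ closure C ∧ ε • (∑ m, w m) + (w i - w' i) ∈ closure C ∧
    ε • (∑ m, w' m) - (w i - w' i) ∈ closure C ∧ ε • (∑ m, w' m) + (w i - w' i) ∈ closure C

/-- no top simplex has an isosceles triangle of nontrivial edges -/
def NIT (C : Set (V n)) (Γ : Subgroup (GL (Fin n) ℝ)) (K : ℕ) : Prop :=
  ∀ w : Fin K → V n, IsPES C Γ w → ∀ i j l, i ≠ j → i ≠ l → j ≠ l →
    3 ≤ Module.finrank ℝ (Fs C (w i) (w j)) → 3 ≤ Module.finrank ℝ (Fs C (w i) (w l)) →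
    Module.finrank ℝ (Fs C (w i) (w l)) ≠ Module.finrank ℝ (Fs C (w j) (w l))

/-- related positions on the flat of `w` -/
def Rel (C : Set (V n)) (Γ : Subgroup (GL (Fin n) ℝ)) (τ : Fin K → Fin K) (w : Fin K → V n)
    (t t' : Fin K → ℝ) : Prop :=
  ∃ γ ∈ Γ, ∃ s : ℝ, 0 < s ∧ img γ (Ws C τ w) = Ws C τ w ∧
    (4 : ℝ) • (s • act γ (xt w t')) - xt w t ∈ closure C ∧
    (4 : ℝ) • xt w t - s • act γ (xt w t') ∈ closure C

/-- the zoom property of `w`: zooming along the flat of `w` is possible with elements mapping the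
factors of `w` exactly onto the factors of the limit -/
def ZoomP (C : Set (V n)) (Γ : Subgroup (GL (Fin n) ℝ)) (c : Fin K → Fin K → ℕ)
    (τ : Fin K → Fin K) (w : Fin K → V n) : Prop :=
  ∀ r : ℕ → Fin K → ℝ, (∀ m i, 0 < r m i) →
    ∃ (φ : ℕ → ℕ) (g : ℕ → GL (Fin n) ℝ) (s : ℕ → ℝ) (v : Fin K → V n), StrictMono φ ∧
      (∀ m, g m ∈ Γ) ∧ (∀ m, 0 < s m) ∧ TT C Γ c v ∧
      (∀ i, Tendsto (fun m => s m • act (g m) (r (φ m) i • w i)) atTop (𝓝 (v i))) ∧
      ∀ m i, img (g m) (Lf C τ w i) = Lf C τ v i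

end Pool.Agent.NTW
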