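import Pool.Agent.NTW.Defs

/-!
# NTW squad (MP_e54c4c_gt), THEOREM NT: BLOCK A (pair boxes, the family `TT`, decomposition)

All rows of the squads PFS and PFJ are PROVED THEOREMS and may be used without hypotheses (they are
imported): `Pool.Agent.PFS.H60.zom : ZomStmt`, `H60.elm : ElmStmt`, `H60.lin : LinStmt`,
`H60.crt : CrtStmt`, `H60.fun_ : FunStmt`, `H37.cloF : CloStmt`, `H37.flmF : FlmStmt`,
`H37.limF : LimStmt`, `H37.lpsF : LpsStmt`, `H3.prp : PrpStmt`, `H81.chi : ChiStmt`,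
`H37.abeF : AbeStmt`, `H32.frz : FrzStmt` (namespace `Pool.Agent.PFS`), `CC.hul : HulFacts C Γ`,
`PCone.normal`, `PCone.absorb`, `PCone.squeeze`, `PES.cl`, `PES.sum_mem`; and in the namespace
`Pool.Agent.PFJ`: `H69.lsc : LscStmt`, `H10.lsf : LsfStmt`, `H32.img : ImgStmt`, `H90.bfa : BfaStmt`,
`H76.unf : UnfStmt`, `H39.nsf : NsfStmt`, `H82.stcF : StcStmt`, `H76e.ei2 : Ei2Stmt`,
`H82.bpbF : BpbStmt`, `H82.fixF : PFB.FixStmt`, `H83.mxe : MxeStmt` (see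
`Pool/Agent/Helper82_PFJ/Main.lean`).
Rows of block E (file `Pool/Agent/NTS/StmtsE.lean`: `NngStmt`, `ExvStmt`, `NbdStmt`, `TwoStmt`,
`EdcStmt`) are used as hypotheses.
Hypotheses of the form `XStmt` in the column `uses` are rows of THIS squad or of block E.
-/

set_option autoImplicit false

open Matrix Filter Topology

namespace Pool.Agent.NTW

open Pool.Agent.PFS Pool.Agent.PFJ Pool.Agent.NTS

/-! ## A. Faces and pair boxes -/

/-- **Row FCS** (faces and their spans).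

Proof.  (1) `S = {z : ∃ M > 0, M x - z ∈ closure C ∧ M x + z ∈ closure C}` is a submodule and contains
`Face C x`: for `y ∈ Face C x`, `x - ε y, y - ε x ∈ closure C`, so `y = (y - ε x) + ε x ∈ closure C`,
`(1/ε) x - y ∈ closure C` and `(1/ε) x + y ∈ closure C`.  So `span (Face C x) ≤ S`
(`Submodule.span_induction` or `span_le`).  `x ∈ Face C x` (`ε = 1`, `zero_cl`).
(2) If `M ≤ 0`, `-y = (M x - y) + (-M) x ∈ closure C`, so `y = 0` (salient).  If `M > 0`: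
`x + y ∈ Face C x`: `(x + y) - ε x` with `ε = 1/(1+M) ≤ 1` is `(1 - ε) x + y`, and
`x - ε (x + y) = ε (M x - y)`.  So `y = (x + y) - x ∈ span`.
(3) `→`: `y ∈ closure C`; for `z` in the span `M x - z ∈ closure C`, and `(1/ε) y - x ∈ closure C`, so
`(M/ε) y - z ∈ closure C`.  `←`: `M y - x ∈ closure C` (`x` is in the span) and `M' x - y ∈ closure C` by
(1), `M, M' > 0`: `ε = min (1/M) (1/M')`.
(4) `z ∈ L`: `M x - z, M' x + z ∈ closure C`, `M, M' > 0`, so `0 ≤ z + M' x ≤ (M + M') x` and (2) gives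
`z + M' x ∈ span`, `x ∈ span`.
(5) By (3) `y ∈ Face C x`, and the definition of `Face` is symmetric: `x ∈ Face C y`.  `y` is a unit of
`span (Face C x)`, so by (4) (for `y`) `span (Face C x) ≤ span (Face C y)`; by (3) (for `y`) `x` is a
unit of `span (Face C y)`, so by (4) `span (Face C y) ≤ span (Face C x)`. -/
def FcsStmt : Prop :=
  ∀ (n : ℕ) (C : Set (V n)), PCone C → ∀ x ∈ closure C,
    Unt C (Submodule.span ℝ (Face C x)) x ∧
    (∀ y ∈ closure C, ∀ M : ℝ, M • x - y ∈ closure C → y ∈ Submodule.span ℝ (Face C x)) ∧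
    (∀ y, y ∈ Face C x ↔ Unt C (Submodule.span ℝ (Face C x)) y) ∧
    (∀ L : Submodule ℝ (V n), Unt C L x → L ≤ Submodule.span ℝ (Face C x)) ∧
    (∀ y, Unt C (Submodule.span ℝ (Face C x)) y →
      Submodule.span ℝ (Face C y) = Submodule.span ℝ (Face C x))

/-- **Row UOP** (units are interior points).

Proof.  Let `b_1, …, b_d` be a basis of `L` (`Module.finBasis`), `M_i > 0` with
`M_i y - b_i, M_i y + b_i ∈ closure C` (the definition of `Unt` for `b_i` and `-b_i`, take the maximum).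
`z_m = ∑ a_{m,i} b_i`; the coordinates are continuous linear functions on the finite-dimensional space
`L` (`LinearMap.continuous_of_finiteDimensional`), so `a_{m,i} → 0`.
`y + z_m = (1 - ∑ |a_{m,i}| M_i) y + ∑ (|a_{m,i}| M_i y + a_{m,i} b_i)`; each bracket is `|a|` times
`M y + b` or `M y - b`; for large `m` the first coefficient is `≥ 0`. -/
def UopStmt : Prop :=
  ∀ (n : ℕ) (C : Set (V n)), PCone C → ∀ (L : Submodule ℝ (V n)) (y : V n), Unt C L y →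
    ∀ z : ℕ → V n, (∀ m, z m ∈ L) → Tendsto z atTop (𝓝 0) → ∀ᶠ m in atTop, y + z m ∈ closure C

/-- **Row PBF** (basic facts on pair boxes).

Proof.  `w_m ∈ closure C` (`PES.cl`), `∑ w ∈ C`, `∑ w = (w_i + w_j) + rst w i j`.
(1) `v ∈ L`: absorb: `M > 0`, `M ∑ w - v ∈ C`; so `(M (w_i + w_j) - v) + M rst ∈ closure C`; divide by `M`;
`(w_i + w_j) - v/M ∈ L`, so it is in `closure C`.  (2) FCS (4) with (1).
(3) Let `A ≥ 1`, `A ≥ |r_m|`.  Adding `(A - r_m) w_m`: `v + A rst ∈ closure C`, so `v/A + rst ∈ closure C`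
and `v ∈ closure C`.  Take `M > 0` with `M (w_i + w_j) - v ∈ closure C` (1); adding,
`M w_i + M w_j + ∑ r_m w_m ∈ closure C`, and NNG gives `r_m ≥ 0`.
(4) `rst w j i = rst w i j` (`Finset.erase_right_comm`), `w j + w i`.
(5) `r_i w_i, r_j w_j ∈ L`; `box` by (3).
(6) `w_i, w_j` are independent (`LIN`): `finrank ≥ 2`.
(7) `v = α w_i + γ w_j`; `v + rst ∈ closure C`: NNG gives `α, γ ≥ 0`.  `finrank = 2` by LIN. -/
def PbfStmt : Prop :=
  ∀ (n : ℕ) (C : Set (V n)), PCone C → ∀ (K : ℕ) (w : Fin K → V n), PES C w → ∀ i j, i ≠ j →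
    (∀ L : Submodule ℝ (V n), PB C w i j L →
      Unt C L (w i + w j) ∧ L ≤ Fs C (w i) (w j) ∧
      (∀ v ∈ L, ∀ r : Fin K → ℝ,
        v + ∑ m ∈ (Finset.univ.erase i).erase j, r m • w m ∈ closure C →
        v ∈ closure C ∧ ∀ m, m ≠ i → m ≠ j → 0 ≤ r m) ∧
      PB C w j i L ∧
      (∀ r : Fin K → ℝ, (∀ m, 0 < r m) → PB C (fun m => r m • w m) i j L) ∧
      2 ≤ Module.finrank ℝ L) ∧
    PB C w i j (Submodule.span ℝ ({w i, w j} : Set (V n))) ∧
    Module.finrank ℝ (Submodule.span ℝ ({w i, w j} : Set (V n))) = 2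

/-- **Row PAC** (the group acts).

Proof.  `G = s • act g` is linear and bijective, `G x ∈ closure C ↔ x ∈ closure C`
(`CC.sact_cl_iff`).  So `Face C (G x) = G '' Face C x` and `span` commutes with the linear map;
`span (Face C (s x)) = span (Face C x)`: `s x ∈ Face C x`-comparable (or: FCS not needed:
`Face C (s x) = Face C x` because the constants `ε` can be changed).  `Fs C (G x) (G y)`:
`G x + G y = G (x + y)`.  `PB`: `rst (G w) i j = G (rst w i j)`.  `Lf`, `Ws`: cases on `τ i = i`,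
`Submodule.map_span`, `Submodule.map_iSup`. -/
def PacStmt : Prop :=
  ∀ (n : ℕ) (C : Set (V n)) (Γ : Subgroup (GL (Fin n) ℝ)), CC C Γ → ∀ g ∈ Γ, ∀ s : ℝ, 0 < s →
    (∀ x y, Fs C (s • act g x) (s • act g y) = img g (Fs C x y)) ∧
    (∀ (K : ℕ) (w : Fin K → V n) (i j : Fin K) (L : Submodule ℝ (V n)), PB C w i j L →
      PB C (fun m => s • act g (w m)) i j (img g L)) ∧
    (∀ (K : ℕ) (τ : Fin K → Fin K) (w : Fin K → V n),
      (∀ i, Lf C τ (fun m => s • act g (w m)) i = img g (Lf C τ w i)) ∧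
      Ws C τ (fun m => s • act g (w m)) = img g (Ws C τ w))

/-- **Row FSR** (rescaling of the vertices).

Proof.  `x = w_i + w_j ∈ closure C`, `y = r_i w_i + r_j w_j`; with `ε = min r_i r_j`, `A = max r_i r_j`:
`y - ε x, A x - y ∈ closure C`, so `y ∈ Face C x`; FCS (3), (5).  Singletons: `span {r w} = span {w}`
for `r ≠ 0` (`Submodule.span_singleton_smul_eq`). -/
def FsrStmt : Prop :=
  ∀ (n : ℕ) (C : Set (V n)), PCone C → ∀ (K : ℕ) (τ : Fin K → Fin K) (w : Fin K → V n)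
    (r : Fin K → ℝ), (∀ i, w i ∈ closure C) → (∀ i, 0 < r i) →
    (∀ i j, Fs C (r i • w i) (r j • w j) = Fs C (w i) (w j)) ∧
    (∀ i, Lf C τ (fun m => r m • w m) i = Lf C τ w i) ∧
    Ws C τ (fun m => r m • w m) = Ws C τ w

/-- **Row PBL** (limits of pair boxes).

Proof.  `w_i, w_j ∈ L'` by the second half of `LimS`.  Let `v ∈ L'`, `v + rst w i j ∈ closure C`;
`v = lim v_m`, `v_m ∈ L_m`.  Let `ε > 0`: `v + rst w i j + ε ∑ w ∈ C` (`∑ w ∈ C`), so for large `m`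
`v_m + rst x_m i j + ε ∑ x_m ∈ C`, that is
`(v_m + ε (x_{m,i} + x_{m,j})) + (1 + ε) rst x_m i j ∈ closure C`; divide by `1 + ε` and use `box`:
`v_m + ε (x_{m,i} + x_{m,j}) ∈ closure C`.  `m → ∞`, then `ε → 0`. -/
def PblStmt : Prop :=
  ∀ (n : ℕ) (C : Set (V n)), PCone C → ∀ (K : ℕ) (x : ℕ → Fin K → V n) (w : Fin K → V n)
    (i j : Fin K) (L : ℕ → Submodule ℝ (V n)) (L' : Submodule ℝ (V n)), i ≠ j →
    (∀ m, PES C (x m)) → PES C w → (∀ l, Tendsto (fun m => x m l) atTop (𝓝 (w l))) →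
    (∀ m, PB C (x m) i j (L m)) → LimS L L' → PB C w i j L'

/-- **Row ZFF** (zoom at an edge: the open face becomes a pair box).

Proof.  `K ≥ 2`.  `N_m = m + 1`, `r_m = N_m` at `i` and `j`, `1` at the other indices, `y_m = r_m w`
(`IsPES`, ELM (1)), `∑ y_m = N_m f + R ∈ C ∩ Hull`, `f = w_i + w_j`, `R = rst w i j`.  ZOM:
`G_m ∑ y_{φ m} → p ∈ C`, `G_m = s_m act g_m`.  LPS: on a subsequence `G_m y_{φ m} → w'`, `IsPES`, `∑ w' = p`.
LSC: on a subsequence `img g_m F → L`, `F = Fs C (w i) (w j)`, same dimension.  Write `N_m` for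
`N_{φ m}`.
Other pairs (and any `L0` with `PB C w k l L0`): `PB C (y_m) k l L0` (PBF 5), `PB C (G_m y_m) k l
(img g_m L0)` (PAC); LSC on a further subsequence and PBL; dimensions are preserved.
The pair `i, j`: `w'_i, w'_j ∈ L` (second half of `LimS`).  Let `v ∈ L`, `v + rst w' i j ∈ closure C`;
`v = lim G_m v_m`, `v_m ∈ F`.  Let `ε > 0`.  `v + rst w' + ε p ∈ C` and, for some `M > 0`, `M p - v ∈ C`;
so for large `m`: `u_m + (1 + ε) R ∈ closure C` with `u_m = v_m + ε N_m f ∈ F`, and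
`M (N_m f + R) - v_m ∈ closure C`.  Claim: `u_m + ε N_m f ∈ closure C` for large `m`.  Otherwise it fails
for infinitely many `m`; let `z_m = u_m / (ε N_m) ∈ F`, `η_m = (1+ε)/(ε N_m) → 0`:
`0 ≤ z_m + η_m R ≤ M' (f + R)` for a constant `M'`, bounded (`normal`), so on a subsequence
`z_m → z`, `z ∈ F` (closed), `z ∈ closure C`.  `f` is a unit of `F` (FCS 1), so `f + z` is a unit
(UNF 3), and `f + z_m = (f + z) + (z_m - z) ∈ closure C` for large `m` (UOP): contradiction.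
So `v_m + 2 ε N_m f ∈ closure C`; apply `G_m`, `m → ∞`: `v + 2 ε (w'_i + w'_j) ∈ closure C`; `ε → 0`. -/
def ZffStmt : Prop :=
  ∀ (n : ℕ) (C : Set (V n)) (Γ : Subgroup (GL (Fin n) ℝ)), CC C Γ → ∀ (K : ℕ) (w : Fin K → V n),
    IsPES C Γ w → ∀ i j, i ≠ j → ∃ w' : Fin K → V n, IsPES C Γ w' ∧
      (∃ L : Submodule ℝ (V n), PB C w' i j L ∧
        Module.finrank ℝ L = Module.finrank ℝ (Fs C (w i) (w j))) ∧
      ∀ k l, k ≠ l → ∀ L : Submodule ℝ (V n), PB C w k l L →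
        ∃ L' : Submodule ℝ (V n), PB C w' k l L' ∧ Module.finrank ℝ L' = Module.finrank ℝ L

/-- **Row EXC** (choice of the dimensions).

Proof.  Let `S` be the set of all `N ∈ ℕ` such that there are an `IsPES` `w` and `c`, symmetric,
`2 ≤ c i j` for `i ≠ j`, `c i i = 0`, `TT C Γ c w` and `∑_i ∑_j c i j = N`.  `S ≠ ∅` (`w0`,
`c i j = 2` for `i ≠ j`, PBF (7)); `S` is bounded by `K² n` (`c i j ≤ finrank L ≤ n`).  Take the maximal
`N` (`Nat.findGreatest` or `Nat.sSup_mem`) with its `c, w`.  Let `TT C Γ c w'`, `i ≠ j`,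
`d = finrank (Fs C (w' i) (w' j))`.  `d ≥ c i j`: `L ≤ Fs` (PBF 2).  If `d > c i j`: ZFF for `w', i, j` gives
`w''`; `c'` = `c` with the values at `(i, j)` and `(j, i)` replaced by `d`; `TT C Γ c' w''` (for `(j, i)`
use PBF (4)), and `∑ c' > ∑ c`, contradiction. -/
def ExcStmt : Prop :=
  ∀ (n : ℕ) (C : Set (V n)) (Γ : Subgroup (GL (Fin n) ℝ)), CC C Γ → ∀ (K : ℕ) (w0 : Fin K → V n),
    IsPES C Γ w0 → ∃ c : Fin K → Fin K → ℕ, (∀ i j, c i j = c j i) ∧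
      (∀ i j, i ≠ j → 2 ≤ c i j) ∧ (∃ w, TT C Γ c w) ∧
      ∀ w, TT C Γ c w → ∀ i j, i ≠ j → Module.finrank ℝ (Fs C (w i) (w j)) = c i j

/-- **Row TAU** (the involution of the isolated edges).

Proof.  `Iso i j := i ≠ j ∧ 3 ≤ c i j ∧ ∀ l, l ≠ i → l ≠ j → c i l ≤ 2 ∧ c j l ≤ 2`; symmetric.
`Iso i j` and `Iso i j'` imply `j' = j` (otherwise `c i j' ≤ 2`).  `τ i = j` if `Iso i j`, `τ i = i` if there
is no such `j` (classical choice). -/
def TauStmt : Prop :=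
  ∀ (K : ℕ) (c : Fin K → Fin K → ℕ), (∀ i j, c i j = c j i) → ∃ τ : Fin K → Fin K, Tau c τ

/-- **Row BXT** (pair boxes of dimension at least three are strictly convex).

Proof.  Box of PFJ: `β m = i` if `m = j`, `β m = m` otherwise; `L' i = L`, `L' j = ⊥`, `L' m = span {w m}`
for `m ≠ i, j`.  `comp`: `x_i + ∑_{m≠i,j} r_m w_m ∈ closure C`: PBF (3) gives `x_i ∈ closure C`,
`r_m ≥ 0`.  `bot`: only `a = j` is not in the range of `β`.  `one`: `β m = m`, `m ≠ i, j`.  `two`: `L' i`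
has dimension `≥ 3`.  `three`: clear.  Now `Pool.Agent.PFJ.H82.stcF : StcStmt` (`Strict`) at `a = i`. -/
def BxtStmt : Prop :=
  ∀ (n : ℕ) (C : Set (V n)) (Γ : Subgroup (GL (Fin n) ℝ)), CC C Γ → ∀ K : ℕ, 3 ≤ K →
    MaxCard C Γ K → ∀ w : Fin K → V n, IsPES C Γ w → ∀ i j, i ≠ j →
    ∀ L : Submodule ℝ (V n), PB C w i j L → 3 ≤ Module.finrank ℝ L →
      ∀ x ∈ L, ∀ y ∈ L, x ∈ closure C → y ∈ closure C → Ind2 x y → Unt C L (x + y)

/-- **Row EXR** (extreme rays of a full pair box).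

Proof.  `F = Fs C (w i) (w j)`.  (1) If `w_i` is a unit of `F`: `M w_i - w_j ∈ closure C`, a combination of
`w` with a negative coefficient (NNG): contradiction.  (2) the same.
(3) `e ∈ F ∩ closure C` not a unit, `y ∈ closure C`, `M e - y ∈ closure C`.  `M > 0` may be assumed
(otherwise `-y ∈ closure C`, `y = 0 = 0 • e`).  `w_i + w_j` is a unit (PBF 1): `M' (w_i + w_j) - e`, so
`M M' (w_i + w_j) - y ∈ closure C` and `y ∈ F` (FCS 2).  If `Ind2 e y`, then `e + y` is a unit (BXT) and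
`(1 + M) e - (e + y) ∈ closure C`, so `(1 + M) e` and `e` are units (UNF 2, 1): contradiction.  So
`α e + γ y = 0`, `(α, γ) ≠ 0`; if `γ ≠ 0`, `y = -(α/γ) e`; if `γ = 0`, `e = 0`, `-y ∈ closure C`, `y = 0`.
(4) If `e` is a unit and `Ext`, then by UNF (6) all elements of `F` are multiples of `e`, so
`finrank F ≤ 1`. -/
def ExrStmt : Prop :=
  ∀ (n : ℕ) (C : Set (V n)) (Γ : Subgroup (GL (Fin n) ℝ)), CC C Γ → ∀ K : ℕ, 3 ≤ K →
    MaxCard C Γ K → ∀ w : Fin K → V n, IsPES C Γ w → ∀ i j, i ≠ j →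
    PB C w i j (Fs C (w i) (w j)) → 3 ≤ Module.finrank ℝ (Fs C (w i) (w j)) →
      ¬ Unt C (Fs C (w i) (w j)) (w i) ∧ ¬ Unt C (Fs C (w i) (w j)) (w j) ∧
      (∀ e ∈ Fs C (w i) (w j), e ∈ closure C → ¬ Unt C (Fs C (w i) (w j)) e → Ext C e) ∧
      (∀ e ∈ Fs C (w i) (w j), Ext C e → ¬ Unt C (Fs C (w i) (w j)) e)

/-- **Row MVG** (replacing the two vertices of a full pair box).

Proof.  `F = Fs C (w i) (w j)`, `R = rst w i j`, `f = w_i + w_j ∈ closure C`.  `a + b` is a unit of `F` (BXT),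
so `Fs C a b = F` (FCS 5).  IsPES by CRT: `a, b, w_m ∈ closure C`.  The sum is `a + b + R` and
`a + b - ε f ∈ closure C`, `0 < ε ≤ 1`, so it is `≥ ε ∑ w ∈ C`.  Omit `i`: suppose `b + R ∈ C`; for
`z ∈ F` absorb gives `M > 0` with `(M b - z) + M R ∈ closure C`, so `M b - z ∈ closure C` (PBF 3), so `b` is a
unit: contradiction.  Omit `j`: the same with `a`.  Omit `m ≠ i, j`: `M f - (a + b) ∈ closure C`,
`M ≥ 1`: the sum is `≤ M ∑_{l≠m} w_l ∉ C` (`bd`).  Limit cone: `f ∉ C` (`bd`, `K ≥ 3`), `f ∈ Hull`, `f ≠ 0`,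
so `f ∈ LamC` (CLO, constant sequence); `a ≠ 0` (`Ind2`), `a ≤ M f`, so `a ∈ LamC` (FLM; `M f ∈ LamC` by
`HulFacts.lamSmul`); the same for `b`. -/
def MvgStmt : Prop :=
  ∀ (n : ℕ) (C : Set (V n)) (Γ : Subgroup (GL (Fin n) ℝ)), CC C Γ → ∀ K : ℕ, 3 ≤ K →
    MaxCard C Γ K → ∀ w : Fin K → V n, IsPES C Γ w → ∀ i j, i ≠ j →
    PB C w i j (Fs C (w i) (w j)) → 3 ≤ Module.finrank ℝ (Fs C (w i) (w j)) →
      ∀ a ∈ Fs C (w i) (w j), ∀ b ∈ Fs C (w i) (w j), a ∈ closure C → b ∈ closure C → Ind2 a b →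
      ¬ Unt C (Fs C (w i) (w j)) a → ¬ Unt C (Fs C (w i) (w j)) b →
      IsPES C Γ (fun m => if m = i then a else if m = j then b else w m) ∧
      Fs C a b = Fs C (w i) (w j)

/-! ## B. The family `TT` -/

/-- **Row TBX** (basic facts on the family).

Proof.  (1) `L` with `PB`, `c i j ≤ finrank L`; `L ≤ Fs` (PBF 2), `finrank Fs = c i j` (`Dom.dim`), so
`L = Fs` (`Submodule.eq_of_le_of_finrank_le`).  (2) ELM (1), PBF (5).  (3) ELM (2), PAC,
`finrank (img g L) = finrank L` (IMG).  (4) ELM (3); `rst (w ∘ π) i j = rst w (π i) (π j)`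
(reindex the sum); the pair box of `w` at `π i, π j`. -/
def TbxStmt : Prop :=
  ∀ (n : ℕ) (C : Set (V n)) (Γ : Subgroup (GL (Fin n) ℝ)) (K : ℕ) (c : Fin K → Fin K → ℕ)
    (τ : Fin K → Fin K), Dom C Γ K c τ → ∀ w, TT C Γ c w →
    (∀ i j, i ≠ j → PB C w i j (Fs C (w i) (w j))) ∧
    (∀ r : Fin K → ℝ, (∀ i, 0 < r i) → TT C Γ c (fun i => r i • w i)) ∧
    (∀ g ∈ Γ, ∀ s : ℝ, 0 < s → TT C Γ c (fun i => s • act g (w i))) ∧
    (∀ π : Equiv.Perm (Fin K), (∀ i j, c (π i) (π j) = c i j) → TT C Γ c (fun i => w (π i)))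

/-- **Row TCL** (the family is closed).

Proof.  For the finitely many pairs `i ≠ j`, one after the other, LSC gives a subsequence with
`Fs C (x_m i) (x_m j) → L_ij`, dimension `c i j` (`Dom.dim`).  PBL with TBX (1): `PB C w i j L_ij`.  So
`TT C Γ c w`.  `L_ij ≤ Fs C (w i) (w j)` (PBF 2), same dimension (`Dom.dim`), so equal. -/
def TclStmt : Prop :=
  ∀ (n : ℕ) (C : Set (V n)) (Γ : Subgroup (GL (Fin n) ℝ)) (K : ℕ) (c : Fin K → Fin K → ℕ)
    (τ : Fin K → Fin K), Dom C Γ K c τ → ∀ (x : ℕ → Fin K → V n) (w : Fin K → V n),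
    (∀ m, TT C Γ c (x m)) → (∀ i, Tendsto (fun m => x m i) atTop (𝓝 (w i))) → IsPES C Γ w →
    TT C Γ c w ∧ ∃ φ : ℕ → ℕ, StrictMono φ ∧
      ∀ i j, i ≠ j → LimS (fun m => Fs C (x (φ m) i) (x (φ m) j)) (Fs C (w i) (w j))

/-- **Row DCP** (decomposition of the box of `w`).

Proof.  `F_i = Lf C τ w i`.  (1), (2): `w_i + w_{τ i}` is in its face span; `w_τi + w_i` is the same sum.
(3) `w_i + w_{τ i}` is a unit of `F_i` (PBF 1, or multiples of `w_i`).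
(4) `y_i = x_i + x_{τ i} ∈ F_i`, `y_{τ i} = y_i`, `∑ y_i = 2 ∑ x_i ∈ closure C` (`Equiv.sum_comp` for the
involution `τ`).  By (3) there is `M > 0` with `M (w_i + w_{τ i}) - y_i ∈ closure C` for all `i`.
Fix `i`.  The other terms: `∑_{l≠i,τ i} y_l ≤ M ∑_{l≠i,τ i} (w_l + w_{τ l}) = 2 M ∑_{l≠i,τ i} w_l`.  If
`τ i ≠ i`: `2 y_i + 2 M rst w i (τ i) ∈ closure C`, so `y_i ∈ closure C` (PBF 3, TBX 1).  If `τ i = i`:
`y_i = b w_i` and `b w_i + 2 M ∑_{l≠i} w_l ∈ closure C`, so `b ≥ 0` (NNG).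
(5) (4) for `x` and `-x`, salient.  (6) `Submodule.mem_iSup_iff_exists_finsupp` or directly.
(7) `→`: `p = ∑ x ∈ C`, `z ∈ F_i`: absorb: `M > 0`, `M p - z ∈ C`; (4) for the family `M x_l - [l = i] z`:
`M y_i - z ∈ closure C` (`τ i ≠ i`) or `M y_i - 2 z ∈ closure C` (`τ i = i`).  `y_i ∈ closure C` by (4).
`←`: `y_i - ε (w_i + w_{τ i}) ∈ closure C` for all `i` with one `ε > 0`; sum: `2 ∑ x - 2 ε ∑ w ∈ closure C`. -/
def DcpStmt : Prop :=
  ∀ (n : ℕ) (C : Set (V n)) (Γ : Subgroup (GL (Fin n) ℝ)) (K : ℕ) (c : Fin K → Fin K → ℕ)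
    (τ : Fin K → Fin K), Dom C Γ K c τ → ∀ w, TT C Γ c w →
    (∀ i, w i ∈ Lf C τ w i) ∧ (∀ i, Lf C τ w (τ i) = Lf C τ w i) ∧
    (∀ i, Unt C (Lf C τ w i) (w i + w (τ i))) ∧
    (∀ x : Fin K → V n, (∀ i, x i ∈ Lf C τ w i) → ∑ i, x i ∈ closure C →
      ∀ i, x i + x (τ i) ∈ closure C) ∧
    (∀ x : Fin K → V n, (∀ i, x i ∈ Lf C τ w i) → ∑ i, x i = 0 → ∀ i, x i + x (τ i) = 0) ∧
    (∀ p, p ∈ Ws C τ w ↔ ∃ x : Fin K → V n, (∀ i, x i ∈ Lf C τ w i) ∧ ∑ i, x i = p) ∧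
    (∀ x : Fin K → V n, (∀ i, x i ∈ Lf C τ w i) →
      (∑ i, x i ∈ C ↔ ∀ i, Unt C (Lf C τ w i) (x i + x (τ i))))

/-- **Row EIW** (extreme elements of the box).

Proof.  (1) `e = ∑ x_i` (DCP 6), `y_i = x_i + x_{τ i} ∈ closure C` (DCP 4), `∑ y_i = 2 e`, so
`2 e - y_i ∈ closure C` and `y_i = c_i e`; some `y_i ≠ 0`, so `c_i ≠ 0` and `e = c_i⁻¹ y_i ∈ Lf C τ w i`.
(2) Suppose `j ≠ i`, `j ≠ τ i`.  DCP (5) for the family `e` at `i`, `-e` at `j`, `0` elsewhere: at the index `i`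
the component is `e` (`τ i ≠ i`, as `τ i ≠ j`) or `2 e` (`τ i = i`): `e = 0`.
(3) EXV, `PES.cl`, LIN.
(4) `Lf C τ w i = Fs C (w i) (w (τ i))`, dimension `c i (τ i) ≥ 3`, pair box by TBX (1); EXR (3), (4). -/
def EiwStmt : Prop :=
  ∀ (n : ℕ) (C : Set (V n)) (Γ : Subgroup (GL (Fin n) ℝ)) (K : ℕ) (c : Fin K → Fin K → ℕ)
    (τ : Fin K → Fin K), Dom C Γ K c τ → ∀ w, TT C Γ c w →
    (∀ e ∈ Ws C τ w, e ∈ closure C → e ≠ 0 → Ext C e → ∃ i, e ∈ Lf C τ w i) ∧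
    (∀ i j, ∀ e, e ∈ Lf C τ w i → e ∈ Lf C τ w j → e ≠ 0 → j = i ∨ j = τ i) ∧
    (∀ i, Ext C (w i) ∧ w i ∈ closure C ∧ w i ≠ 0) ∧
    (∀ i, τ i ≠ i → ∀ e ∈ Lf C τ w i, e ∈ closure C → (Ext C e ↔ ¬ Unt C (Lf C τ w i) e))

/-- **Row TWP** (two vertices of `v` in one factor of `w`).

Proof.  If `τ i = i`, `v a` and `v b` are multiples of `w i`, contradicting LIN.  So `τ i ≠ i`,
`Lf C τ w i = Fs C (w i) (w (τ i)) =: F` has dimension `c i (τ i) ≥ 3`, and `v a, v b ∈ F ∩ closure C` are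
independent (LIN); `v a + v b` is a unit of `F` (BXT with TBX (1) for `w`), so `Fs C (v a) (v b) = F`
(FCS 5, `x = w i + w (τ i)`).  `c a b = finrank F = c i (τ i)` by `Dom.dim` for `v` and for `w`.
`v d ∈ F`: `M (v a + v b) - v d ∈ closure C` (unit), a combination of `v` with coefficient `-1` at `d` if
`d ≠ a, b`: contradicts NNG. -/
def TwpStmt : Prop :=
  ∀ (n : ℕ) (C : Set (V n)) (Γ : Subgroup (GL (Fin n) ℝ)) (K : ℕ) (c : Fin K → Fin K → ℕ)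
    (τ : Fin K → Fin K), Dom C Γ K c τ → ∀ v w, TT C Γ c v → TT C Γ c w →
    ∀ i a b, a ≠ b → v a ∈ Lf C τ w i → v b ∈ Lf C τ w i →
      τ i ≠ i ∧ Fs C (v a) (v b) = Lf C τ w i ∧ c a b = c i (τ i) ∧
      ∀ d, v d ∈ Lf C τ w i → d = a ∨ d = b

/-- **Row CHW** (moves: other boundary rays of the factors).

Proof.  `F_i = Lf C τ w i`, `u_i = w'_i + w'_{τ i}`.  If `τ i = i`, `w'_i = r_i w_i` with `r_i > 0` (in
`closure C`, nonzero, salient).  `u_i` is a unit of `F_i` (BXT for pairs), so there are `M, ε > 0` with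
`ε (w_i + w_{τ i}) ≤ u_i ≤ M (w_i + w_{τ i})` for all `i`.  Note: for a `τ`-invariant set `S` of indices
`∑_S w' = (1/2) ∑_S u ≤ M ∑_S w` (*).
IsPES by CRT: `2 ∑ w' = ∑ u_i ≥ 2 ε ∑ w ∈ C`.  Omit `i`, `τ i = i`: (*) with `S = {l ≠ i}`, `bd`.  Omit `i`,
`τ i ≠ i`: suppose `∑_{l≠i} w'_l ∈ C`; by (*) `w'_{τ i} + M rst w i (τ i) ∈ C`; for `z ∈ F_i` absorb gives
`(M' w'_{τ i} - z) + M' M rst ∈ closure C`, so `M' w'_{τ i} - z ∈ closure C` (PBF 3) and `w'_{τ i}` is a unit of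
`F_i = F_{τ i}`: contradiction.  Limit cone: `w'_i ≤ u_i ≤ M (w_i + w_{τ i})`; for `τ i ≠ i`
`w_i + w_{τ i} ∈ LamC` (CLO, `∉ C` as `K ≥ 3`), FLM; for `τ i = i`, `w'_i = r_i w_i`.
Pair boxes at `k ≠ l`: (a) `l = τ k`: `F_k` contains `w'_k, w'_l`; if `v ∈ F_k`, `v + rst w' k l ∈ closure C`,
then by (*) `v + M rst w k l ∈ closure C`, so `v ∈ closure C`; dimension `c k l`.  (b) `τ k = k`, `τ l = l`:
`Fs C (w k) (w l)`, the same argument (`{m ≠ k, l}` is `τ`-invariant).  (c) otherwise `τ k ≠ k`, `l ≠ τ k`, or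
`τ l ≠ l`, `k ≠ τ l`: `c k l ≤ 2` (`leaf`, `sym`), and `span {w'_k, w'_l}` works (PBF (7) for `w'`).
`Lf C τ w' i = F_i`: `span {r w} = span {w}`; FCS (5) for the unit `u_i`. -/
def ChwStmt : Prop :=
  ∀ (n : ℕ) (C : Set (V n)) (Γ : Subgroup (GL (Fin n) ℝ)) (K : ℕ) (c : Fin K → Fin K → ℕ)
    (τ : Fin K → Fin K), Dom C Γ K c τ → ∀ w, TT C Γ c w → ∀ w' : Fin K → V n,
    (∀ i, w' i ∈ Lf C τ w i ∧ w' i ∈ closure C ∧ w' i ≠ 0) →
    (∀ i, τ i ≠ i → Ind2 (w' i) (w' (τ i)) ∧ ¬ Unt C (Lf C τ w i) (w' i)) →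
    TT C Γ c w' ∧ (∀ i, Lf C τ w' i = Lf C τ w i) ∧ Ws C τ w' = Ws C τ w

/-- **Row CN2** (combinatorics).  Classes `{i, τ i}`; every class of one element contains at most one
value of `f` and every class at most two; then there is a bijection with values in the same classes.

Proof.  `f' a = min (f a) (τ (f a))` (the class representative).  `h a = f' a` if no `b < a` has
`f b ∈ {f a, τ (f a)}`, otherwise `h a = τ (f' a)`.  Injective: `h a = h b` implies that `f a`, `f b` are in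
the same class; if `a ≠ b`, say `b < a`, then `h a = τ (f' a)`, and `h b = f' b = f' a` (otherwise there is
`d < b` in the class: three distinct indices, excluded); `τ (f' a) ≠ f' a` because `τ (f a) ≠ f a`.
`h` is a permutation (`Finite.injective_iff_bijective`), `h a ∈ {f a, τ (f a)}`; `π = h⁻¹`:
`i = h (π i) ∈ {f (π i), τ (f (π i))}`. -/
def Cn2Stmt : Prop :=
  ∀ (K : ℕ) (τ f : Fin K → Fin K), (∀ i, τ (τ i) = i) →
    (∀ a b, a ≠ b → (f b = f a ∨ f b = τ (f a)) → τ (f a) ≠ f a) →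
    (∀ a b d, a ≠ b → a ≠ d → b ≠ d → (f b = f a ∨ f b = τ (f a)) →
      (f d = f a ∨ f d = τ (f a)) → False) →
    ∃ π : Equiv.Perm (Fin K), ∀ i, f (π i) = i ∨ f (π i) = τ i

/-- **Row ALW** (all vertices of `v` in the box of `w`: the boxes are equal).

Proof.  EIW (3), (1): `v a ∈ Lf C τ w (f a)`.  `Lf C τ w (τ j) = Lf C τ w j` (DCP 2).  If `a ≠ b` and
`f b ∈ {f a, τ (f a)}` then `v a, v b ∈ Lf C τ w (f a)`: TWP: `τ (f a) ≠ f a`, and no third index.  CN2: `π`,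
and `v (π i) ∈ Lf C τ w i` for all `i`.  CHW for `w' i = v (π i)`: in `closure C`, nonzero; pairs: `Ind2` by
LIN, not a unit by EIW (4) (`v (π i)` is `Ext` by EIW (3)).  So `TT C Γ c w'`, `Lf C τ w' i = Lf C τ w i`.
`c (π i) (π j) = c i j` for `i ≠ j`: `Dom.dim` for `v` and for `w'`; call this (A).
`τ (π i) = π (τ i)`: Case `τ i ≠ i`: `3 ≤ c i (τ i) = c (π i) (π (τ i))`.  If `τ (π i) = π i`, `sgl` gives
`l = π m`, `l ≠ π i, π (τ i)` with `3 ≤ c i m` or `3 ≤ c (τ i) m`, `m ≠ i, τ i`, contradicting `leaf` (at `i`, at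
`τ i`).  So `τ (π i) ≠ π i` and by `leaf` `π (τ i) = τ (π i)`.  Case `τ i = i`: suppose `τ (π i) = π m ≠ π i`.
`3 ≤ c (π i) (π m) = c i m` (`pair`), `sgl` at `i, m`: `l ≠ i, m` with `3 ≤ c i l = c (π i) (π l)` or
`3 ≤ c m l = c (τ (π i)) (π l)`, contradicting `leaf` at `π i`, at `τ (π i)`.
So `Lf C τ v (π i) = Lf C τ w' i = Lf C τ w i` (`τ (π i) = π i ↔ τ i = i`), and
`Ws C τ v = ⨆_i Lf C τ v (π i) = Ws C τ w`. -/
def AlwStmt : Prop :=
  ∀ (n : ℕ) (C : Set (V n)) (Γ : Subgroup (GL (Fin n) ℝ)) (K : ℕ) (c : Fin K → Fin K → ℕ)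
    (τ : Fin K → Fin K), Dom C Γ K c τ → ∀ v w, TT C Γ c v → TT C Γ c w →
    (∀ i, v i ∈ Ws C τ w) → Ws C τ v = Ws C τ w ∧
      ∃ π : Equiv.Perm (Fin K), (∀ i, τ (π i) = π (τ i)) ∧ ∀ i, Lf C τ v (π i) = Lf C τ w i

/-- **Row PTP** (adapted simplices through a given point; as the landed row PRB of PFJ,
`Pool/Agent/Helper25_PFJ/PRB.lean`).

Proof.  `p = ∑ x_i` (DCP 6), `y_i = x_i + x_{τ i} = y_{τ i}`, units (DCP 7).  `τ i = i`: `w'_i = (1/2) y_i = x_i`.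
`i < τ i`: `σ = max {s ≥ 0 : y_i - s w_i ∈ closure C}` (closed, bounded by `normal` as `w_i ≠ 0`; `σ > 0`
since `y_i` is a unit), `w'_i = σ w_i`, `w'_{τ i} = y_i - σ w_i`.  `w'_{τ i}` is not a unit (otherwise
UNF (4) with `z = w_i` contradicts the maximality of `σ`); `w'_i` is not a unit (EIW 3, 4).  `w'_{τ i} ≠ 0`
(otherwise `y_i = σ w_i` is a unit, so `w_i` is a unit); `Ind2`: if `w'_{τ i} = ρ w_i` then `y_i` is a
multiple of `w_i`, a unit, contradiction.  CHW.  `∑ w' = (1/2) ∑ y_i = p`. -/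
def PtpStmt : Prop :=
  ∀ (n : ℕ) (C : Set (V n)) (Γ : Subgroup (GL (Fin n) ℝ)) (K : ℕ) (c : Fin K → Fin K → ℕ)
    (τ : Fin K → Fin K), Dom C Γ K c τ → ∀ w, TT C Γ c w → ∀ p ∈ Ws C τ w, p ∈ C →
    ∃ w' : Fin K → V n, TT C Γ c w' ∧ (∀ i, Lf C τ w' i = Lf C τ w i) ∧ ∑ i, w' i = p

/-- **Row WLM** (limits of the boxes; compare the landed row BLM of PFJ).

Proof.  TCL: `TT C Γ c w`, and on a subsequence the pair factors converge; the lines `span {x_m i}`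
converge to `span {w i}` because `x_m i → w i ≠ 0` (second half: `r_m x_m i → z`: `r_m` is bounded, as
`‖x_m i‖` is bounded below).  Suprema, first half of `LimS`: sums of sequences.  Second half: let
`z_m ∈ Ws C τ (x (φ' m))`, `z_m → z`, `φ'` a subsequence; `z_m = ∑ z_{m,i}`, replace `z_{m,i}` by
`(1/2)(z_{m,i} + z_{m,τ i})`.  `p = ∑ w ∈ C`: absorb: `M p ± z ∈ C`, so for large `m`
`M ∑ x_m ± z_m ∈ C`, and DCP (4): `M (x_i + x_{τ i}) ± 2 z_{m,i} ∈ closure C`; so `z_{m,i}` is bounded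
(`normal`), on a subsequence `z_{m,i} → z_i ∈ Lf C τ w i` (second half of `LimS` for the factors),
`z = ∑ z_i ∈ Ws C τ w`. -/
def WlmStmt : Prop :=
  ∀ (n : ℕ) (C : Set (V n)) (Γ : Subgroup (GL (Fin n) ℝ)) (K : ℕ) (c : Fin K → Fin K → ℕ)
    (τ : Fin K → Fin K), Dom C Γ K c τ → ∀ (x : ℕ → Fin K → V n) (w : Fin K → V n),
    (∀ m, TT C Γ c (x m)) → (∀ i, Tendsto (fun m => x m i) atTop (𝓝 (w i))) → IsPES C Γ w →
    TT C Γ c w ∧ ∃ φ : ℕ → ℕ, StrictMono φ ∧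
      (∀ i, LimS (fun m => Lf C τ (x (φ m)) i) (Lf C τ w i)) ∧
      LimS (fun m => Ws C τ (x (φ m))) (Ws C τ w)

end Pool.Agent.NTW
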