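import Pool.Agent.NTW.StmtsA

/-!
# NTW squad (MP_e54c4c_gt), THEOREM NT: BLOCK B (half space pairs)

Conventions and proved rows: see the header of `Pool/Agent/NTW/StmtsA.lean`.
Result (row HSC): if the box of `v'` is near the flat of `v` on a half space `ν > 0`, with labels, and
the two boxes are different, then `ν` is a multiple of `e_j - e_k` where `k` is a leaf with neighbour
`j` (this uses `NIT`).

Elementary facts used everywhere (`v, v'` in `TT`, `x` with `Nr C τ M v v' t x`):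
`y_i := x i + x (τ i) ∈ Lf C τ v' i`, `y_{τ i} = y_i`, `y_i ∈ closure C` (DCP 4: `∑ x ≥ xt v t`, so
`∑ x ∈ closure C`), `∑_i y_i = 2 ∑_i x i` (`Equiv.sum_comp` for the involution `τ`), so
`2 ∑ x - y_i ∈ closure C`, and for a `τ`-invariant set `S` of indices
`∑_{i∈S} x i = (1/2) ∑_{i∈S} y_i ∈ closure C`.  `exp (t i) • v i ≤ xt v t ≤ ∑ x ≤ M • xt v t`; so `M ≥ 1`
(`(M - 1) xt v t ∈ closure C`, `xt v t ∈ C`, salient).
`xt v (t + a) = exp a • xt v t`.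
-/

set_option autoImplicit false

open Matrix Filter Topology

namespace Pool.Agent.NTW

open Pool.Agent.PFS Pool.Agent.PFJ Pool.Agent.NTS

/-- **Row LM1** (the last part of the proof of row HSL of block E).

Proof.  There is `j ≠ k` with `ν_j > 0` (`∑ ν = 0`, `ν ≠ 0`, `ν_i ≥ 0` for `i ≠ k`).  If there were another
`j' ≠ j, k` with `ν_{j'} > 0`: for `i0 ≠ k` one of `j`, `j'` is `≠ i0`; NBD (`i1` = this index):
`∑_{i≠i0} w_i + y ∉ C` for all `i0 ≠ k`, contradicting TWO.  So `ν_i = 0` for `i ≠ j, k`, hence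
`ν_k = -ν_j`.  EDC. -/
def Lm1Stmt : Prop :=
  ∀ (n : ℕ) (C : Set (V n)) (Γ : Subgroup (GL (Fin n) ℝ)), CC C Γ → ∀ K : ℕ, 3 ≤ K →
    MaxCard C Γ K → ∀ (w : Fin K → V n) (y : V n) (k : Fin K) (ν : Fin K → ℝ), IsPES C Γ w →
      y ∈ LamC C Γ → (¬ ∃ r : ℝ, y = r • w k) → BelowH C w y k ν → (∀ i, i ≠ k → 0 ≤ ν i) →
      ν ≠ 0 → ∑ i, ν i = 0 →
      ∃ j, j ≠ k ∧ 0 < ν j ∧ ν k = -ν j ∧ (∀ i, i ≠ j → i ≠ k → ν i = 0) ∧
        ∃ M : ℝ, 0 < M ∧ M • (w j + w k) - y ∈ closure C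

/-- **Row HIN** (a vertex which dominates somewhere in the half space is in the other box).

Proof.  Let `m ≠ i`, `ν_m < 0`; `B ≥ 0` with `ν_i - B ν_m > 0`.  For `N ∈ ℕ`, `N ≥ 1`: `t^N_i = N`,
`t^N_m = -B N`, `0` elsewhere: `∑ ν t^N = N (ν_i - B ν_m) > 0`.  `e^{-N} xt v t^N → v_i`.  Let `x^N` be given
by `near`, `z^N_l = e^{-N} (1/2) (x^N_l + x^N_{τ l}) ∈ Lf C τ v' l ∩ closure C`, `∑_l z^N_l = e^{-N} ∑ x^N`,
between `e^{-N} xt v t^N` and `M` times it: bounded (`normal`).  On a subsequence `z^N_l → z_l` for all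
`l`, `z_l ∈ Lf C τ v' l` (closed) `∩ closure C`, `q = ∑ z_l`, `v_i ≤ q ≤ M v_i`, `z_l ≤ q`; `v_i` is `Ext`
(EIW 3): `z_l = α_l v_i`.
For `τ l = l`, `l ≠ i`: `z^N_l = e^{-N} b v'_l`, `0 ≤ b ≤ M exp (t^N_l)`, `e^{-N} b → 0`: `z_l = 0`.
If `τ i = i`: `z^N_i = e^{-N} b v'_i`, `1 ≤ M e^{-N} b ≤ M²`: on a subsequence `e^{-N} b → β ≥ 1/M > 0`,
`β v'_i = α_i v_i`, `v'_i ≠ 0`, so `α_i ≠ 0`, `α_i > 0` (salient): `v'_i = (α_i/β) v_i`.
If `τ i ≠ i`: `z_l = 0` for all `l` with `τ l = l`; `q ≠ 0` (`q ≥ v_i`), so `z_l ≠ 0` for some `l` with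
`τ l ≠ l`, `α_l ≠ 0` and `v_i = α_l⁻¹ z_l ∈ Lf C τ v' l`. -/
def HinStmt : Prop :=
  ∀ (n : ℕ) (C : Set (V n)) (Γ : Subgroup (GL (Fin n) ℝ)) (K : ℕ) (c : Fin K → Fin K → ℕ)
    (τ : Fin K → Fin K), Dom C Γ K c τ → ∀ (v v' : Fin K → V n) (ν : Fin K → ℝ) (M : ℝ),
    HSP C Γ c τ v v' ν M → ∀ i, (∃ m, m ≠ i ∧ ν m < 0) →
      (τ i = i → ∃ r : ℝ, 0 < r ∧ v' i = r • v i) ∧
      (τ i ≠ i → ∃ j, τ j ≠ j ∧ v i ∈ Lf C τ v' j)

/-- **Row HSK** (exactly one negative coordinate).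

Proof.  `∑ ν = 0`, `ν ≠ 0`: some `ν_k < 0`.  By HIN, if all `i` satisfy `∃ m ≠ i, ν_m < 0`, then all `v_i`
are in `Ws C τ v'` (single `i`: `v_i = r⁻¹ v'_i ∈ Lf C τ v' i`), and ALW gives equal boxes,
contradicting `ne`.  So `ν_i ≥ 0` for `i ≠ k`.  HIN for `i ≠ k` (`m = k`): `lab`, `cls`; so `v_i ∈ Ws C τ v'`
for `i ≠ k`, and `v_k ∉ Ws C τ v'` by ALW again. -/
def HskStmt : Prop :=
  ∀ (n : ℕ) (C : Set (V n)) (Γ : Subgroup (GL (Fin n) ℝ)) (K : ℕ) (c : Fin K → Fin K → ℕ)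
    (τ : Fin K → Fin K), Dom C Γ K c τ → ∀ (v v' : Fin K → V n) (ν : Fin K → ℝ) (M : ℝ),
    HSP C Γ c τ v v' ν M → ∃ k, HK C Γ c τ v v' ν M k

/-- **Row SWU** (exchange of the vertex `k`, `τ k = k`).

Proof.  `u i = if i = k then v' k else v i`.  `f a = a` if `τ a = a`; for `τ a ≠ a` let `f a = j` from the
last hypothesis (`a ≠ k`).  So `u a ∈ Lf C τ v' (f a)` for all `a`, and `τ (f a) = f a ↔ τ a = a`.
CN2: (first hypothesis) `a ≠ b`, `f b ∈ {f a, τ (f a)}`, suppose `τ (f a) = f a`; then `τ a = a`, `f b = f a` is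
fixed, so `τ b = b` and `b = f b = f a = a`: contradiction.  (second) three different `a, b, d` in one
class: by the first part the class is a pair, so `a, b, d ≠ k`, and `v a, v b, v d ∈ Lf C τ v' (f a)` (DCP 2)
contradicts TWP.  CN2 gives `π` with `f (π i) ∈ {i, τ i}`, so `u (π i) ∈ Lf C τ v' i`; if `τ i = i` then
`f (π i) = i` is fixed, so `τ (π i) = π i` and `π i = f (π i) = i`; in particular `π k = k`; if `τ i ≠ i`, then
`τ (π i) ≠ π i`.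
CHW for `v'` and `w' i = u (π i)`: in `closure C`, `≠ 0`; for `τ i ≠ i`: `w' i = v (π i)`,
`w' (τ i) = v (π (τ i))`, independent (LIN), `v (π i)` is `Ext` (EIW 3 for `v`), so not a unit (EIW 4 for `v'`).
So `TT C Γ c (u ∘ π)`.
`c (π i) (π j) = c i j` for `i ≠ j`: if `i, j ≠ k`: `π i, π j ≠ k`, both sides are
`finrank (Fs C (v (π i)) (v (π j)))` (`Dom.dim` for `v` and for `u ∘ π`).  If `j = k = π k`: if `τ i = i`,
`π i = i`; if `τ i ≠ i`, then `c i k = 2` (`leaf`, `two`; `k ≠ τ i` because `τ k = k`) and `c (π i) k = 2`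
the same.  `i = k`: `sym`.  For `i = j` too: `c (π i) (π i) = c i i` is not needed: apply the following
with `c'` = `c` off the diagonal; simplest: TBX (4) for the permutation `π⁻¹` needs all `i j`, so treat the
pair boxes directly: for `i ≠ j` the pair box of `u ∘ π` at `(π⁻¹ i, π⁻¹ j)` is a pair box of `u` at `(i, j)`
of dimension `≥ c (π⁻¹ i) (π⁻¹ j) = c i j` (`rst` is a reindexed sum), and `IsPES C Γ u` by ELM (3). -/
def SwuStmt : Prop :=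
  ∀ (n : ℕ) (C : Set (V n)) (Γ : Subgroup (GL (Fin n) ℝ)) (K : ℕ) (c : Fin K → Fin K → ℕ)
    (τ : Fin K → Fin K), Dom C Γ K c τ → ∀ (v v' : Fin K → V n) (k : Fin K), TT C Γ c v →
    TT C Γ c v' → τ k = k →
    (∀ i, i ≠ k → τ i = i → ∃ r : ℝ, 0 < r ∧ v' i = r • v i) →
    (∀ i, i ≠ k → τ i ≠ i → ∃ j, τ j ≠ j ∧ v i ∈ Lf C τ v' j) →
    TT C Γ c (fun i => if i = k then v' k else v i)

/-- **Row BLA** (the vertex `v' k` is below the flat of `v`, `τ k = k`).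

Proof.  `M ≥ 1`.  Let `u` be integral, `∑ ν_i u_i > 0`, `t_i = u_i log 2`; `exp (t i) = 2 ^ u i`,
`xt v t = pt v u`; `∑ ν t = log 2 ∑ ν u > 0`.  `x` from `near`: `x_k = b v'_k`, `exp (t k) ≤ M b`,
`∑_{i≠k} x_i ∈ closure C` (`{i ≠ k}` is `τ`-invariant), so
`2^{u_k} v'_k ≤ M b v'_k ≤ M ∑ x ≤ M² pt v u`. -/
def BlaStmt : Prop :=
  ∀ (n : ℕ) (C : Set (V n)) (Γ : Subgroup (GL (Fin n) ℝ)) (K : ℕ) (c : Fin K → Fin K → ℕ)
    (τ : Fin K → Fin K), Dom C Γ K c τ → ∀ (v v' : Fin K → V n) (ν : Fin K → ℝ) (M : ℝ)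
    (k : Fin K), HK C Γ c τ v v' ν M k → τ k = k → BelowH C v (v' k) k ν

/-- **Row HCA** (conclusion in the case `τ k = k`).

Proof.  `y = v' k ∈ LamC`, `y ≠ 0`.  `y` is not a multiple of `v k`: `y = r v_k` implies `r ≠ 0` and
`v_k = r⁻¹ v'_k ∈ Ws C τ v'`, contradicting `out`.  BLA, LM1: `j ≠ k`, `ν_j > 0`, `ν_k = -ν_j`,
`ν_i = 0` for `i ≠ j, k`, `M' (v_j + v_k) - y ∈ closure C`.
(a) `3 ≤ c j k`: otherwise `c j k = 2` (`two`); `Fs C (v j) (v k)` has dimension `2` (`Dom.dim`) and contains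
`span {v j, v k}` (PBF), so it is equal to it, and `y = α v_j + β v_k` (FCS 2).  `v_j ∈ Ws C τ v'` (`lab`,
`cls`), `y ∈ Ws C τ v'`, so `β v_k ∈ Ws C τ v'` and `β = 0` (`out`).  `y = α v_j`, `α ≠ 0`.  `v_j ∈ Lf C τ v' j'`
with `j' = j` (if `τ j = j`) or `τ j' ≠ j'`; so `y ∈ Lf C τ v' j' ∩ Lf C τ v' k`, EIW (2): `k = j'` or
`k = τ j'`: impossible.
(b) `τ j = j`: otherwise `c j k ≤ 2` by `leaf` (`k ≠ τ j` because `τ k = k`).
(c) Let `l ≠ j, k`; suppose `3 ≤ c k l`.  `ṽ = fun i => if i = k then y else v i`, `TT C Γ c ṽ` (SWU), so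
`finrank (Fs C y (v l)) = c k l`.  MVG for `v` at the pair `j, k` with `a = y`, `b = v k`: `y ∈ Fs C (v j) (v k)`
(FCS 2), `y` and `v k` are `Ext` (EIW 3 for `v'`, `v`), hence not units (EXR 4); `Ind2 y (v k)` (both
nonzero, not multiples).  So `w''` (`y` at `j`, `v k` at `k`, `v m` elsewhere) is `IsPES`,
`Fs C (w'' j) (w'' k) = Fs C (v j) (v k)`.  `NIT` for `w''` at `k, j, l`: `finrank (Fs C (w'' k) (w'' j)) =
c j k ≥ 3` (`add_comm`), `finrank (Fs C (w'' k) (w'' l)) = c k l ≥ 3`, and it equals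
`finrank (Fs C (w'' j) (w'' l)) = finrank (Fs C y (v l)) = c k l`: contradiction. -/
def HcaStmt : Prop :=
  ∀ (n : ℕ) (C : Set (V n)) (Γ : Subgroup (GL (Fin n) ℝ)) (K : ℕ) (c : Fin K → Fin K → ℕ)
    (τ : Fin K → Fin K), Dom C Γ K c τ → NIT C Γ K → ∀ (v v' : Fin K → V n) (ν : Fin K → ℝ)
    (M : ℝ) (k : Fin K), HK C Γ c τ v v' ν M k → τ k = k →
    ∃ j, Leaf c τ j k ∧ 0 < ν j ∧ ν k = -ν j ∧ ∀ i, i ≠ j → i ≠ k → ν i = 0

/-- **Row CNT** (combinatorics).  `P = {i : τ i ≠ i}`, `A = P \ {k}`, `f : A → P`; two different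
elements of `A` in the same class (`f b ∈ {f a, τ (f a)}`) are exchanged by `τ`.  Then all classes are
hit, and `f a`, `f (τ a)` are in the same class for `a, τ a ∈ A`.

Proof.  `card P` is even and `card A = card P - 1`.  `f' a = min (f a) (τ (f a))`, `h a = f' a` if
`a < τ a`, `h a = τ (f' a)` if `τ a < a`.  `h : A → P` is injective: `h a = h b` implies that `f a, f b` are in
one class, so `b = a` or `b = τ a`; in the second case one of `h a`, `h b` is `f' a` and the other `τ (f' a) ≠ f' a`.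
(1) Suppose `a, τ a ∈ A` and `f (τ a)` is not in the class of `f a`.  Then `τ (h a)` and `τ (h (τ a))` are
different elements of `P` which are not in the image of `h` (`h b = τ (h a)`: `f b` is in the class of
`f a`, so `b = a` or `b = τ a`; `b = a` is impossible as `τ (h a) ≠ h a`, `b = τ a` by assumption).  So
`card A ≤ card P - 2`: contradiction.  (2) If `j ∈ P` is not hit, `j` and `τ j` are not in the image:
the same contradiction. -/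
def CntStmt : Prop :=
  ∀ (K : ℕ) (τ f : Fin K → Fin K) (k : Fin K), (∀ i, τ (τ i) = i) → τ k ≠ k →
    (∀ a, a ≠ k → τ a ≠ a → τ (f a) ≠ f a) →
    (∀ a b, a ≠ k → b ≠ k → τ a ≠ a → τ b ≠ b → a ≠ b → (f b = f a ∨ f b = τ (f a)) →
      b = τ a) →
    (∀ a, a ≠ k → a ≠ τ k → τ a ≠ a → (f (τ a) = f a ∨ f (τ a) = τ (f a))) ∧
    (∀ j, τ j ≠ j → ∃ a, a ≠ k ∧ τ a ≠ a ∧ (f a = j ∨ f a = τ j))

/-- the class of `i0` is the only one which is not filled, `τ k ≠ k` -/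
structure Hole {n K : ℕ} (C : Set (V n)) (τ : Fin K → Fin K) (v v' : Fin K → V n)
    (k i0 : Fin K) : Prop where
  pr : τ i0 ≠ i0
  prk : τ k ≠ k
  mem : v (τ k) ∈ Lf C τ v' i0
  full : ∀ j, j ≠ i0 → j ≠ τ i0 → τ j ≠ j →
    ∃ a, a ≠ k ∧ a ≠ τ k ∧ τ a ≠ a ∧ Lf C τ v' j = Lf C τ v a
  oth : ∀ m, m ≠ k → m ≠ τ k → ∃ j, j ≠ i0 ∧ j ≠ τ i0 ∧ v m ∈ Lf C τ v' j

/-- **Row HFB** (structure in the case `τ k ≠ k`).

Proof.  For `a ≠ k`, `τ a ≠ a` let `f a` be the index of `cls` (`f a = a` for the other `a`).  CNT,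
hypothesis (4): `a ≠ b` in the same class: `v a, v b ∈ Lf C τ v' (f a)` (DCP 2), TWP:
`c a b = c (f a) (τ (f a)) ≥ 3`, so `b = τ a` (`leaf`).  `i0 = f (τ k)` (`τ k ≠ k`, `τ (τ k) = k ≠ τ k`).
`full`: `j` is hit: `a ∈ A`, `f a ∈ {j, τ j}`; `a ≠ τ k` (`f (τ k) = i0`); so `τ a ≠ k`, and by CNT `f (τ a)` is in
the same class: `v a, v (τ a) ∈ Lf C τ v' j`, TWP: `Fs C (v a) (v (τ a)) = Lf C τ v' j`, which is
`Lf C τ v a`.  `oth`: if `τ m = m`: `v m = r⁻¹ v' m ∈ Lf C τ v' m`, and `m ≠ i0, τ i0` since `i0`, `τ i0` are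
not fixed.  If `τ m ≠ m`: `j = f m`; if `f m ∈ {i0, τ i0}`, the classes of `f m` and `f (τ k)` agree, so
`m = τ (τ k) = k` (hypothesis (4) of CNT), contradiction. -/
def HfbStmt : Prop :=
  ∀ (n : ℕ) (C : Set (V n)) (Γ : Subgroup (GL (Fin n) ℝ)) (K : ℕ) (c : Fin K → Fin K → ℕ)
    (τ : Fin K → Fin K), Dom C Γ K c τ → ∀ (v v' : Fin K → V n) (ν : Fin K → ℝ) (M : ℝ)
    (k : Fin K), HK C Γ c τ v v' ν M k → τ k ≠ k → ∃ i0, Hole C τ v v' k i0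

/-- **Row HOT** (the components outside the hole).  `Nr`, `Lbl` at `t`; for an index `l ≠ i0, τ i0` the
component is bounded by the other vertices.

Proof.  `τ l = l` (then `l ≠ k, τ k`): `y_l = 2 x_l = 2 b v'_l = 2 b r v_l`, `0 ≤ b ≤ M exp (t l)`, where
`v' l = r v l` (`lab`).  `τ l ≠ l`: `Lf C τ v' l = Lf C τ v a`, `a ≠ k, τ k` (`full`), so also `τ a ≠ k, τ k`.
`y_l ≤ 2 ∑ x ≤ 2 M xt v t`: `2 M xt v t - y_l ∈ closure C` is the sum of the family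
`2 M exp (t m) v_m - [m = a] y_l` of elements of `Lf C τ v m`; DCP (4) at `a`:
`2 M (exp (t a) v_a + exp (t (τ a)) v_{τ a}) - y_l ∈ closure C`.  So in both cases
`y_l ≤ R ∑_{m≠k,τ k} exp (t m) v_m` with `R = 2 M (1 + max r)`: `R` depends only on `v, v', M` (not on
`t`, `x`). -/
def HotStmt : Prop :=
  ∀ (n : ℕ) (C : Set (V n)) (Γ : Subgroup (GL (Fin n) ℝ)) (K : ℕ) (c : Fin K → Fin K → ℕ)
    (τ : Fin K → Fin K), Dom C Γ K c τ → ∀ (v v' : Fin K → V n) (ν : Fin K → ℝ) (M : ℝ)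
    (k i0 : Fin K), HK C Γ c τ v v' ν M k → Hole C τ v v' k i0 → 1 ≤ M →
    ∃ R : ℝ, 0 < R ∧ ∀ (t : Fin K → ℝ) (x : Fin K → V n), Nr C τ M v v' t x →
      Lbl τ M v' t x → ∀ l, l ≠ i0 → l ≠ τ i0 →
      R • (∑ m ∈ (Finset.univ.erase k).erase (τ k), Real.exp (t m) • v m) - (x l + x (τ l))
        ∈ closure C

/-- **Row HB1** (`ν` is not supported on `k, τ k`).

Proof.  `r = τ k`.  Suppose `ν_j = 0` for all `j ≠ k, r` (`pos`); then `ν_r = -ν_k > 0`.  For `N ∈ ℕ`: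
`t^N_r = 1`, `t^N_k = 0`, `-N` elsewhere: `∑ ν t = ν_r > 0`; `x^N` from `near`.  `M ≥ 1`.  HFB: `i0`; HOT:
for `l ≠ i0, τ i0` `y^N_l ≤ R e^{-N} ∑_{m≠k,r} v_m → 0`, so `y^N_l → 0` (`normal`).
`f^N = x^N_{i0} + x^N_{τ i0} ∈ Lf C τ v' i0 ∩ closure C`, `2 ∑ x^N = 2 f^N + ∑_{l≠i0,τ i0} y^N_l`, bounded
(`≤ 2 M xt v t^N`, which converges).  On a subsequence `f^N → f ∈ Lf C τ v' i0`, `∑ x^N → f`, and
`f ≥ e v_r + v_k ≥ v_k`.  `f ≤ M' (v'_{i0} + v'_{τ i0})` (DCP 3), so `v_k ≤ M' (v'_{i0} + v'_{τ i0})` and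
`v_k ∈ Fs C (v' i0) (v' (τ i0)) = Lf C τ v' i0 ≤ Ws C τ v'` (FCS 2), contradicting `out`. -/
def Hb1Stmt : Prop :=
  ∀ (n : ℕ) (C : Set (V n)) (Γ : Subgroup (GL (Fin n) ℝ)) (K : ℕ) (c : Fin K → Fin K → ℕ)
    (τ : Fin K → Fin K), Dom C Γ K c τ → ∀ (v v' : Fin K → V n) (ν : Fin K → ℝ) (M : ℝ)
    (k : Fin K), HK C Γ c τ v v' ν M k → τ k ≠ k → ∃ j, j ≠ k ∧ j ≠ τ k ∧ 0 < ν j

/-- **Row HCM** (comparison of the components in the hole at two points).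

Proof.  `r = τ k`, `f = x i0 + x (τ i0)`, `f' = x' i0 + x' (τ i0)`, `j_m` the index of `oth` for `m ≠ k, r`.
(1) `∑ x - exp (t r) v_r ∈ closure C` is the sum of the family `x_l - [l = i0] exp (t r) v_r` in
`Lf C τ v' l`; DCP (4) at `i0` (`τ i0 ≠ i0`): `f - exp (t r) v_r ∈ closure C`.
(2) `t k ≤ t' k`: `xt v t = exp (t k) v_k + exp (t r) v_r + ∑_{m≠k,r} exp (t m) v_m`, and
`exp (t k) v_k ≤ exp (t' k) v_k ≤ xt v t' ≤ ∑ x'`.  So with `∑ x ≤ M xt v t`: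
`M (∑ x' + exp (t r) v_r + ∑_{m≠k,r} exp (t m) v_m) - ∑ x ∈ closure C`; it is the sum of the family
`M (x'_l + [l = i0] exp (t r) v_r + ∑_{m≠k,r, j_m = l} exp (t m) v_m) - x_l`; at `i0` and `τ i0` the last sum is
empty.  DCP (4) at `i0`: `M (f' + exp (t r) v_r) - f ∈ closure C`.
(3) if also `t r ≤ t' r`: `exp (t k) v_k + exp (t r) v_r ≤ xt v t' ≤ ∑ x'`, and the same argument without
the term `[l = i0] exp (t r) v_r`. -/
def HcmStmt : Prop :=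
  ∀ (n : ℕ) (C : Set (V n)) (Γ : Subgroup (GL (Fin n) ℝ)) (K : ℕ) (c : Fin K → Fin K → ℕ)
    (τ : Fin K → Fin K), Dom C Γ K c τ → ∀ (v v' : Fin K → V n) (M : ℝ) (k i0 : Fin K),
    TT C Γ c v → TT C Γ c v' → 1 ≤ M → Hole C τ v v' k i0 →
    ∀ (t t' : Fin K → ℝ) (x x' : Fin K → V n), Nr C τ M v v' t x → Nr C τ M v v' t' x' →
      (x i0 + x (τ i0)) - Real.exp (t (τ k)) • v (τ k) ∈ closure C ∧
      (t k ≤ t' k →
        M • ((x' i0 + x' (τ i0)) + Real.exp (t (τ k)) • v (τ k)) - (x i0 + x (τ i0))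
          ∈ closure C) ∧
      (t k ≤ t' k → t (τ k) ≤ t' (τ k) →
        M • (x' i0 + x' (τ i0)) - (x i0 + x (τ i0)) ∈ closure C)

/-- **Row HB2** (the vector `h`).  In the case `τ k ≠ k` there is `h` in the hole such that the
component in the hole is comparable with `exp (t (τ k)) v_{τ k} + exp (t k) h` on the half space.

Proof.  `r = τ k`; `j ≠ k, r`, `ν_j > 0`.  `M ≥ 1`.  For `u ∈ ℕ`: `t^u_k = u`, `t^u_r = 0`,
`t^u_j = T_u := (1 - ν_k u)/ν_j`, `0` elsewhere: `∑ ν t^u = 1 > 0`; `x^u` from `near`,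
`f_u = x^u_{i0} + x^u_{τ i0}`.
Bounded: `t~ = u` off `j`, `u + 1` at `j`: `∑ ν t~ = ν_j > 0`, `x~` from `near`; HCM (3) (`t = t^u`,
`t' = t~`; `t_k = u ≤ u`, `t_r = 0 ≤ u`): `f_u ≤ M (x~_{i0} + x~_{τ i0}) ≤ 2 M ∑ x~ ≤ 2 M² xt v t~ ≤
2 M² e^u e ∑ v`.  So `e^{-u} f_u` is bounded (`normal`); on a subsequence `e^{-u} f_u → h`,
`h ∈ Lf C τ v' i0 ∩ closure C`.
Let `∑ ν t > 0`, `Nr` at `t` with `x`, `f = x i0 + x (τ i0)`.  For `u` in the subsequence, `u ≥ t_k - t_r`,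
let `t' = t^u + (t_k - u)`, `x' = exp (t_k - u) x^u`: `Nr C τ M v v' t' x'` (homogeneity), `t'_k = t_k`,
`t'_r = t_k - u ≤ t_r`.  HCM (3) with the roles exchanged: `exp (t_k - u) f_u ≤ M f`; HCM (2):
`f ≤ M (exp (t_k - u) f_u + exp (t_r) v_r)`.  `u → ∞`. -/
def Hb2Stmt : Prop :=
  ∀ (n : ℕ) (C : Set (V n)) (Γ : Subgroup (GL (Fin n) ℝ)) (K : ℕ) (c : Fin K → Fin K → ℕ)
    (τ : Fin K → Fin K), Dom C Γ K c τ → ∀ (v v' : Fin K → V n) (ν : Fin K → ℝ) (M : ℝ)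
    (k i0 j : Fin K), HK C Γ c τ v v' ν M k → Hole C τ v v' k i0 → 1 ≤ M → j ≠ k → j ≠ τ k →
    0 < ν j →
    ∃ h ∈ Lf C τ v' i0, h ∈ closure C ∧
      ∀ (t : Fin K → ℝ) (x : Fin K → V n), 0 < ∑ i, ν i * t i → Nr C τ M v v' t x →
        M • (x i0 + x (τ i0)) - Real.exp (t k) • h ∈ closure C ∧
        M • (Real.exp (t k) • h + Real.exp (t (τ k)) • v (τ k)) - (x i0 + x (τ i0)) ∈ closure C

/-- **Row HB3** (the case `τ k ≠ k` is impossible).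

Proof.  `M ≥ 1` (a point with `∑ ν t > 0` exists: `t = -1_k`).  HFB: `i0`; HB1: `j`; HB2: `h`.  `r = τ k`.
(a) `h ≠ 0`: otherwise take `t = -1_k` (`∑ ν t = -ν_k > 0`) and `x` from `near`: the component
`f ≤ M exp (t_r) v_r`, and by HOT the other components are `≤ R ∑_{m≠k,r} exp (t_m) v_m`; so
`2 exp (t_k) v_k ≤ 2 ∑ x = 2 f + ∑_{l≠i0,τ i0} y_l ≤ R' ∑_{m≠k} v_m`, contradicting NNG.
(b) `h ∈ LamC`: `h ≤ M' g`, `g = v'_{i0} + v'_{τ i0}` (DCP 3); `g ∈ Hull`, `g ∉ C` (`bd`, `K ≥ 3`), `g ≠ 0`, so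
`g ∈ LamC` (CLO, constant sequence); FLM.
(c) `h` is not a multiple of `v_k`: `h = ρ v_k` gives `ρ ≠ 0`, `v_k ∈ Lf C τ v' i0 ≤ Ws C τ v'`.
(d) `BelowH C v h k ν` with the constant `2 M²`: `u` integral, `∑ ν u > 0`, `t = u log 2`, `x` from
`near`: `2^{u_k} h ≤ M f ≤ 2 M ∑ x ≤ 2 M² pt v u`.
(e) LM1: `j' ≠ k`, `ν_i = 0` for `i ≠ j', k`; as `ν_j > 0`, `j' = j`; `M' (v_j + v_k) - h ∈ closure C`.
`c k j ≤ 2` (`leaf` at `k`; `j ≠ k, τ k`), so `= 2`, and `Fs C (v j) (v k)` (dimension `2`, `Dom.dim`, `sym`)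
`= span {v j, v k}` (PBF), `h = α v_j + β v_k` (FCS 2).  `v_j ∈ Ws C τ v'` (`oth`), `h ∈ Ws C τ v'`, so `β = 0`
(`out`), `h = α v_j`, `α ≠ 0`.  `v_j ∈ Lf C τ v' j1`, `j1 ≠ i0, τ i0` (`oth`), so
`h ∈ Lf C τ v' j1 ∩ Lf C τ v' i0`: contradicts EIW (2). -/
def Hb3Stmt : Prop :=
  ∀ (n : ℕ) (C : Set (V n)) (Γ : Subgroup (GL (Fin n) ℝ)) (K : ℕ) (c : Fin K → Fin K → ℕ)
    (τ : Fin K → Fin K), Dom C Γ K c τ → ∀ (v v' : Fin K → V n) (ν : Fin K → ℝ) (M : ℝ)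
    (k : Fin K), HK C Γ c τ v v' ν M k → τ k = k

/-- **Row HSC** (half space pairs; assembly).

Proof.  HSK: `k`; HB3: `τ k = k`; HCA. -/
def HscStmt : Prop :=
  ∀ (n : ℕ) (C : Set (V n)) (Γ : Subgroup (GL (Fin n) ℝ)) (K : ℕ) (c : Fin K → Fin K → ℕ)
    (τ : Fin K → Fin K), Dom C Γ K c τ → NIT C Γ K → ∀ (v v' : Fin K → V n) (ν : Fin K → ℝ)
    (M : ℝ), HSP C Γ c τ v v' ν M →
    ∃ j k, Leaf c τ j k ∧ 0 < ν j ∧ ν k = -ν j ∧ ∀ i, i ≠ j → i ≠ k → ν i = 0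

end Pool.Agent.NTW
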